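import Mathlib

set_option autoImplicit false

namespace Pool.Agent.Helper74.SSQ

open Finset

/-- one perfect matching in a regular bipartite multigraph (edges as a finset `S` of a type). -/
theorem exists_matching {E L R : Type*} [Fintype E] [Fintype L] [Fintype R] [DecidableEq E]
    [DecidableEq L] [DecidableEq R] (l : E → L) (r : E → R) (w : ℕ) (S : Finset E) (hw : 0 < w)
    (hl : ∀ u, (S.filter (fun e => l e = u)).card = w)
    (hr : ∀ v, (S.filter (fun e => r e = v)).card = w) :
    ∃ M : Finset E, M ⊆ S ∧ (∀ u, (M.filter (fun e => l e = u)).card = 1) ∧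
      (∀ v, (M.filter (fun e => r e = v)).card = 1) := by
  classical
  -- neighbourhoods
  let t : L → Finset R := fun u => (S.filter (fun e => l e = u)).image r
  have hall : ∀ s : Finset L, s.card ≤ (s.biUnion t).card := by
    intro s
    have h1 : (S.filter (fun e => l e ∈ s)).card = s.card * w := by
      rw [Finset.card_eq_sum_card_fiberwise (f := l) (t := s)]
      · rw [Finset.sum_congr rfl (g := fun _ => w)]
        · simp
        · intro u hu
          rw [← hl u]
          congr 1
          ext e
          simp only [Finset.mem_filter]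
          constructor
          · rintro ⟨⟨h, _⟩, h2⟩; exact ⟨h, h2⟩
          · rintro ⟨h, h2⟩; exact ⟨⟨h, by rw [h2]; exact hu⟩, h2⟩
      · intro e he
        simp only [Finset.coe_filter, Set.mem_setOf_eq] at he
        exact he.2
    have h2 : (S.filter (fun e => r e ∈ s.biUnion t)).card = (s.biUnion t).card * w := by
      rw [Finset.card_eq_sum_card_fiberwise (f := r) (t := s.biUnion t)]
      · rw [Finset.sum_congr rfl (g := fun _ => w)]
        · simp
        · intro v hv
          rw [← hr v]
          congr 1
          ext e
          simp only [Finset.mem_filter]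
          constructor
          · rintro ⟨⟨h, _⟩, h2⟩; exact ⟨h, h2⟩
          · rintro ⟨h, h2⟩; exact ⟨⟨h, by rw [h2]; exact hv⟩, h2⟩
      · intro e he
        simp only [Finset.coe_filter, Set.mem_setOf_eq] at he
        exact he.2
    have h3 : S.filter (fun e => l e ∈ s) ⊆ S.filter (fun e => r e ∈ s.biUnion t) := by
      intro e he
      simp only [Finset.mem_filter] at he ⊢
      refine ⟨he.1, ?_⟩
      simp only [Finset.mem_biUnion, t, Finset.mem_image, Finset.mem_filter]
      exact ⟨l e, he.2, e, ⟨he.1, rfl⟩, rfl⟩
    have h4 := Finset.card_le_card h3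
    rw [h1, h2] at h4
    exact Nat.le_of_mul_le_mul_right h4 hw
  obtain ⟨φ, hφ, hφ2⟩ := (Finset.all_card_le_biUnion_card_iff_exists_injective t).1 hall
  have hch : ∀ u, ∃ e, e ∈ S ∧ l e = u ∧ r e = φ u := by
    intro u
    have := hφ2 u
    simp only [t, Finset.mem_image, Finset.mem_filter] at this
    obtain ⟨e, ⟨h1, h2⟩, h3⟩ := this
    exact ⟨e, h1, h2, h3⟩
  choose m hm1 hm2 hm3 using hch
  -- cardinalities agree
  have hcard : Fintype.card L = Fintype.card R := by
    have h1 : S.card = Fintype.card L * w := by
      rw [Finset.card_eq_sum_card_fiberwise (f := l) (t := Finset.univ)]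
      · rw [Finset.sum_congr rfl (g := fun _ => w)]
        · simp [Finset.card_univ]
        · intro u _; exact hl u
      · intro e _; simp
    have h2 : S.card = Fintype.card R * w := by
      rw [Finset.card_eq_sum_card_fiberwise (f := r) (t := Finset.univ)]
      · rw [Finset.sum_congr rfl (g := fun _ => w)]
        · simp [Finset.card_univ]
        · intro u _; exact hr u
      · intro e _; simp
    rw [h1] at h2
    exact Nat.eq_of_mul_eq_mul_right hw h2
  have hbij : Function.Bijective φ := by
    rw [Fintype.bijective_iff_injective_and_card]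
    exact ⟨hφ, hcard⟩
  refine ⟨Finset.univ.image m, ?_, ?_, ?_⟩
  · intro e he
    simp only [Finset.mem_image, Finset.mem_univ, true_and] at he
    obtain ⟨u, rfl⟩ := he
    exact hm1 u
  · intro u
    rw [Finset.card_eq_one]
    refine ⟨m u, ?_⟩
    ext e
    simp only [Finset.mem_filter, Finset.mem_image, Finset.mem_univ, true_and,
      Finset.mem_singleton]
    constructor
    · rintro ⟨⟨u', rfl⟩, h⟩
      rw [hm2] at h
      rw [h]
    · rintro rfl
      exact ⟨⟨u, rfl⟩, hm2 u⟩
  · intro v
    obtain ⟨u, rfl⟩ := hbij.2 v
    rw [Finset.card_eq_one]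
    refine ⟨m u, ?_⟩
    ext e
    simp only [Finset.mem_filter, Finset.mem_image, Finset.mem_univ, true_and,
      Finset.mem_singleton]
    constructor
    · rintro ⟨⟨u', rfl⟩, h⟩
      rw [hm3] at h
      rw [hφ h]
    · rintro rfl
      exact ⟨⟨u, rfl⟩, hm3 u⟩

/-- König: a regular bipartite multigraph of degree `w` is `w`-edge-colourable, each vertex sees
each colour exactly once. -/
theorem konig {E L R : Type*} [Fintype E] [Fintype L] [Fintype R] [DecidableEq E]
    [DecidableEq L] [DecidableEq R] (l : E → L) (r : E → R) :
    ∀ (w : ℕ) (S : Finset E),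
    (∀ u, (S.filter (fun e => l e = u)).card = w) →
    (∀ v, (S.filter (fun e => r e = v)).card = w) →
    ∃ c : E → ℕ, (∀ e ∈ S, c e < w) ∧
      (∀ u, ∀ i < w, (S.filter (fun e => l e = u ∧ c e = i)).card = 1) ∧
      (∀ v, ∀ i < w, (S.filter (fun e => r e = v ∧ c e = i)).card = 1) := by
  classical
  intro w
  induction w with
  | zero =>
    intro S hl hr
    refine ⟨fun _ => 0, ?_, ?_, ?_⟩
    · intro e he
      have := hl (l e)
      rw [Finset.card_eq_zero, Finset.filter_eq_empty_iff] at this
      exact absurd rfl (this he)
    · intro u i hi; omega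
    · intro u i hi; omega
  | succ w ih =>
    intro S hl hr
    obtain ⟨M, hMS, hMl, hMr⟩ := exists_matching l r (w + 1) S (Nat.succ_pos _) hl hr
    have hl' : ∀ u, ((S \ M).filter (fun e => l e = u)).card = w := by
      intro u
      have h1 : (S \ M).filter (fun e => l e = u) =
          S.filter (fun e => l e = u) \ M.filter (fun e => l e = u) := by
        ext e; simp only [Finset.mem_filter, Finset.mem_sdiff]; tauto
      rw [h1, Finset.card_sdiff_of_subset (Finset.filter_subset_filter _ hMS), hl, hMl]
      omega
    have hr' : ∀ v, ((S \ M).filter (fun e => r e = v)).card = w := by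
      intro u
      have h1 : (S \ M).filter (fun e => r e = u) =
          S.filter (fun e => r e = u) \ M.filter (fun e => r e = u) := by
        ext e; simp only [Finset.mem_filter, Finset.mem_sdiff]; tauto
      rw [h1, Finset.card_sdiff_of_subset (Finset.filter_subset_filter _ hMS), hr, hMr]
      omega
    obtain ⟨c, hc1, hc2, hc3⟩ := ih (S \ M) hl' hr'
    refine ⟨fun e => if e ∈ M then w else c e, ?_, ?_, ?_⟩
    · intro e he
      dsimp only
      split_ifs with h
      · omega
      · have := hc1 e (Finset.mem_sdiff.2 ⟨he, h⟩); omega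
    · intro u i hi
      rcases Nat.lt_succ_iff_lt_or_eq.1 hi with hi' | rfl
      · rw [← hc2 u i hi']
        congr 1
        ext e
        simp only [Finset.mem_filter, Finset.mem_sdiff]
        by_cases hM : e ∈ M
        · simp only [hM, if_true]
          constructor
          · rintro ⟨_, _, h⟩; omega
          · rintro ⟨⟨_, h⟩, _⟩; exact absurd trivial h
        · simp [hM]
      · rw [← hMl u]
        congr 1
        ext e
        simp only [Finset.mem_filter]
        by_cases hM : e ∈ M
        · simp only [hM, if_true]
          constructor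
          · rintro ⟨_, h, _⟩; exact ⟨trivial, h⟩
          · rintro ⟨_, h⟩; exact ⟨hMS hM, h, trivial⟩
        · simp only [hM, if_false, false_and, iff_false]
          rintro ⟨h1, _, h3⟩
          have := hc1 e (Finset.mem_sdiff.2 ⟨h1, hM⟩)
          omega
    · intro u i hi
      rcases Nat.lt_succ_iff_lt_or_eq.1 hi with hi' | rfl
      · rw [← hc3 u i hi']
        congr 1
        ext e
        simp only [Finset.mem_filter, Finset.mem_sdiff]
        by_cases hM : e ∈ M
        · simp only [hM, if_true]
          constructor
          · rintro ⟨_, _, h⟩; omega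
          · rintro ⟨⟨_, h⟩, _⟩; exact absurd trivial h
        · simp [hM]
      · rw [← hMr u]
        congr 1
        ext e
        simp only [Finset.mem_filter]
        by_cases hM : e ∈ M
        · simp only [hM, if_true]
          constructor
          · rintro ⟨_, h, _⟩; exact ⟨trivial, h⟩
          · rintro ⟨_, h⟩; exact ⟨hMS hM, h, trivial⟩
        · simp only [hM, if_false, false_and, iff_false]
          rintro ⟨h1, _, h3⟩
          have := hc1 e (Finset.mem_sdiff.2 ⟨h1, hM⟩)
          omega

end Pool.Agent.Helper74.SSQ
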