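import Mathlib
import Pool.Agent.Helper74.SSQ.Color

set_option autoImplicit false

namespace Pool.Agent.Helper74.SSQ

open Finset

/-- refine a map all of whose fibres have size `w * α y` to one with all fibres of size `w`. -/
theorem refine_map {E Y : Type*} [Fintype E] [Fintype Y] [DecidableEq E] [DecidableEq Y]
    (l : E → Y) (w : ℕ) (α : Y → ℕ)
    (hl : ∀ y, (Finset.univ.filter (fun e => l e = y)).card = w * α y) :
    ∃ l' : E → (Σ y, Fin (α y)), (∀ e, (l' e).1 = l e) ∧
      ∀ p, (Finset.univ.filter (fun e => l' e = p)).card = w := by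
  classical
  have hc : ∀ y, Fintype.card {e // l e = y} = Fintype.card (Fin (α y) × Fin w) := by
    intro y
    rw [Fintype.card_subtype, hl y]
    simp [mul_comm]
  let ε : ∀ y, {e // l e = y} ≃ Fin (α y) × Fin w := fun y => Fintype.equivOfCardEq (hc y)
  refine ⟨fun e => ⟨l e, (ε (l e) ⟨e, rfl⟩).1⟩, fun e => rfl, ?_⟩
  rintro ⟨y, k⟩
  have : (Finset.univ.filter (fun e => (⟨l e, (ε (l e) ⟨e, rfl⟩).1⟩ : Σ y, Fin (α y)) = ⟨y, k⟩))
      = Finset.univ.image (fun j : Fin w => ((ε y).symm (k, j)).1) := by
    ext e
    simp only [Finset.mem_filter, Finset.mem_univ, true_and, Finset.mem_image]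
    constructor
    · intro h
      obtain ⟨h1, h2⟩ := Sigma.mk.inj_iff.1 h
      subst h1
      have h2' := eq_of_heq h2
      refine ⟨(ε (l e) ⟨e, rfl⟩).2, ?_⟩
      rw [← h2']
      simp
    · rintro ⟨j, rfl⟩
      obtain ⟨e, he⟩ : ∃ e, e = (ε y).symm (k, j) := ⟨_, rfl⟩
      rw [← he]
      obtain ⟨e0, he0⟩ := e
      subst he0
      have : ε (l e0) ⟨e0, rfl⟩ = (k, j) := by rw [he]; simp
      rw [this]
  rw [this, Finset.card_image_of_injective]
  · simp
  · intro j j' h
    have h' := Subtype.ext h
    have := (ε y).symm.injective h'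
    simpa using this

/-- Splitting: a bipartite multigraph with degrees `w * α y`, `w * β z` can be edge-coloured with
`w` colours so that every colour class has degrees `α y`, `β z`. -/
theorem split_color {E Y Z : Type*} [Fintype E] [Fintype Y] [Fintype Z] [DecidableEq E]
    [DecidableEq Y] [DecidableEq Z] (l : E → Y) (r : E → Z) (w : ℕ) (α : Y → ℕ) (β : Z → ℕ)
    (hl : ∀ y, (Finset.univ.filter (fun e => l e = y)).card = w * α y)
    (hr : ∀ z, (Finset.univ.filter (fun e => r e = z)).card = w * β z) :
    ∃ c : E → Fin w,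
      (∀ y i, (Finset.univ.filter (fun e => l e = y ∧ c e = i)).card = α y) ∧
      (∀ z i, (Finset.univ.filter (fun e => r e = z ∧ c e = i)).card = β z) := by
  classical
  obtain ⟨l', hl1, hl2⟩ := refine_map l w α hl
  obtain ⟨r', hr1, hr2⟩ := refine_map r w β hr
  obtain ⟨c, hc1, hc2, hc3⟩ := konig l' r' w Finset.univ hl2 hr2
  refine ⟨fun e => ⟨c e, hc1 e (Finset.mem_univ _)⟩, ?_, ?_⟩
  · intro y i
    have h1 : (Finset.univ.filter (fun e => l e = y ∧ (⟨c e, hc1 e (Finset.mem_univ _)⟩ : Fin w) = i))
        = (Finset.univ : Finset (Fin (α y))).biUnion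
          (fun k => Finset.univ.filter (fun e => l' e = ⟨y, k⟩ ∧ c e = i)) := by
      ext e
      simp only [Finset.mem_filter, Finset.mem_univ, true_and, Finset.mem_biUnion]
      constructor
      · rintro ⟨h1, h2⟩
        rw [Fin.ext_iff] at h2
        have h3 := hl1 e
        rcases hle : l' e with ⟨a, b⟩
        rw [hle] at h3
        simp only at h3
        have h4 : a = y := by rw [h3, h1]
        subst h4
        exact ⟨b, by rw [← hle], h2⟩
      · rintro ⟨k, h1, h2⟩
        refine ⟨?_, Fin.ext h2⟩
        rw [← hl1 e, h1]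
    beta_reduce
    rw [h1, Finset.card_biUnion]
    · rw [Finset.sum_congr rfl (g := fun _ => 1)]
      · simp
      · intro k _
        exact hc2 ⟨y, k⟩ i i.2
    · intro k _ k' _ hkk
      rw [Function.onFun, Finset.disjoint_left]
      intro e he he'
      simp only [Finset.mem_filter, Finset.mem_univ, true_and] at he he'
      apply hkk
      have := he.1.symm.trans he'.1
      simpa using this
  · intro z i
    have h1 : (Finset.univ.filter (fun e => r e = z ∧ (⟨c e, hc1 e (Finset.mem_univ _)⟩ : Fin w) = i))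
        = (Finset.univ : Finset (Fin (β z))).biUnion
          (fun k => Finset.univ.filter (fun e => r' e = ⟨z, k⟩ ∧ c e = i)) := by
      ext e
      simp only [Finset.mem_filter, Finset.mem_univ, true_and, Finset.mem_biUnion]
      constructor
      · rintro ⟨h1, h2⟩
        rw [Fin.ext_iff] at h2
        have h3 := hr1 e
        rcases hle : r' e with ⟨a, b⟩
        rw [hle] at h3
        simp only at h3
        have h4 : a = z := by rw [h3, h1]
        subst h4
        exact ⟨b, by rw [← hle], h2⟩
      · rintro ⟨k, h1, h2⟩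
        refine ⟨?_, Fin.ext h2⟩
        rw [← hr1 e, h1]
    beta_reduce
    rw [h1, Finset.card_biUnion]
    · rw [Finset.sum_congr rfl (g := fun _ => 1)]
      · simp
      · intro k _
        exact hc3 ⟨z, k⟩ i i.2
    · intro k _ k' _ hkk
      rw [Function.onFun, Finset.disjoint_left]
      intro e he he'
      simp only [Finset.mem_filter, Finset.mem_univ, true_and] at he he'
      apply hkk
      have := he.1.symm.trans he'.1
      simpa using this

/-- Matrix form. -/
theorem split_matrix {Y Z : Type*} [Fintype Y] [Fintype Z] [DecidableEq Y] [DecidableEq Z]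
    (w : ℕ) (M : Y → Z → ℕ) (α : Y → ℕ) (β : Z → ℕ)
    (hr : ∀ y, ∑ z, M y z = w * α y) (hc : ∀ z, ∑ y, M y z = w * β z) :
    ∃ g : Fin w → Y → Z → ℕ, (∀ y z, ∑ b, g b y z = M y z) ∧
      (∀ b y, ∑ z, g b y z = α y) ∧ (∀ b z, ∑ y, g b y z = β z) := by
  classical
  let E := Σ p : Y × Z, Fin (M p.1 p.2)
  let l : E → Y := fun e => e.1.1
  let r : E → Z := fun e => e.1.2
  have hfib : ∀ (q : Y × Z → Prop) [DecidablePred q],
      ((Finset.univ : Finset E).filter (fun e => q e.1)).card =
        ∑ p ∈ Finset.univ.filter q, M p.1 p.2 := by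
    intro q _
    rw [Finset.card_eq_sum_card_fiberwise (f := fun e : E => e.1) (t := Finset.univ.filter q)]
    · apply Finset.sum_congr rfl
      intro p hp
      simp only [Finset.mem_filter, Finset.mem_univ, true_and] at hp
      rw [Finset.filter_filter]
      have : (Finset.univ.filter (fun e : E => q e.1 ∧ e.1 = p)) =
          Finset.univ.image (fun k : Fin (M p.1 p.2) => (⟨p, k⟩ : E)) := by
        ext ⟨p', k⟩
        simp only [Finset.mem_filter, Finset.mem_univ, true_and, Finset.mem_image]
        constructor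
        · rintro ⟨_, h⟩
          subst h
          exact ⟨k, rfl⟩
        · rintro ⟨k', h⟩
          have := (Sigma.mk.inj_iff.1 h).1
          subst this
          exact ⟨hp, rfl⟩
      rw [this, Finset.card_image_of_injective]
      · simp
      · intro a b h
        exact eq_of_heq (Sigma.mk.inj_iff.1 h).2
    · intro e he
      simpa using he
  obtain ⟨c, hc1, hc2⟩ := split_color l r w α β (by
    intro y
    rw [hfib (fun p => p.1 = y), ← hr y]
    rw [Finset.sum_filter, Fintype.sum_prod_type]
    simp) (by
    intro z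
    rw [hfib (fun p => p.2 = z), ← hc z]
    rw [Finset.sum_filter, Fintype.sum_prod_type]
    simp)
  refine ⟨fun b y z => (Finset.univ.filter (fun k : Fin (M y z) => c ⟨(y, z), k⟩ = b)).card,
    ?_, ?_, ?_⟩
  · intro y z
    have := Finset.card_eq_sum_card_fiberwise (s := (Finset.univ : Finset (Fin (M y z))))
      (f := fun k => c ⟨(y, z), k⟩) (t := Finset.univ) (by intro _ _; simp)
    simpa using this.symm
  · intro b y
    rw [← hc1 y b]
    rw [Finset.card_eq_sum_card_fiberwise (f := fun e : E => e.1.2) (t := Finset.univ)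
      (by intro _ _; simp)]
    apply Finset.sum_congr rfl
    intro z _
    rw [Finset.filter_filter]
    have : (Finset.univ.filter (fun e : E => (l e = y ∧ c e = b) ∧ e.1.2 = z)) =
        (Finset.univ.filter (fun k : Fin (M y z) => c ⟨(y, z), k⟩ = b)).image
          (fun k => (⟨(y, z), k⟩ : E)) := by
      ext ⟨⟨y', z'⟩, k⟩
      simp only [Finset.mem_filter, Finset.mem_univ, true_and, Finset.mem_image, l]
      constructor
      · rintro ⟨⟨h1, h2⟩, h3⟩
        subst h1; subst h3
        exact ⟨k, h2, rfl⟩
      · rintro ⟨k', h1, h2⟩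
        have h3 := (Sigma.mk.inj_iff.1 h2).1
        simp only [Prod.mk.injEq] at h3
        obtain ⟨rfl, rfl⟩ := h3
        have h4 := eq_of_heq (Sigma.mk.inj_iff.1 h2).2
        subst h4
        exact ⟨⟨rfl, h1⟩, rfl⟩
    rw [this, Finset.card_image_of_injective]
    intro a b h
    exact eq_of_heq (Sigma.mk.inj_iff.1 h).2
  · intro b z
    rw [← hc2 z b]
    rw [Finset.card_eq_sum_card_fiberwise (f := fun e : E => e.1.1) (t := Finset.univ)
      (by intro _ _; simp)]
    apply Finset.sum_congr rfl
    intro y _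
    rw [Finset.filter_filter]
    have : (Finset.univ.filter (fun e : E => (r e = z ∧ c e = b) ∧ e.1.1 = y)) =
        (Finset.univ.filter (fun k : Fin (M y z) => c ⟨(y, z), k⟩ = b)).image
          (fun k => (⟨(y, z), k⟩ : E)) := by
      ext ⟨⟨y', z'⟩, k⟩
      simp only [Finset.mem_filter, Finset.mem_univ, true_and, Finset.mem_image, r]
      constructor
      · rintro ⟨⟨h1, h2⟩, h3⟩
        subst h1; subst h3
        exact ⟨k, h2, rfl⟩
      · rintro ⟨k', h1, h2⟩
        have h3 := (Sigma.mk.inj_iff.1 h2).1
        simp only [Prod.mk.injEq] at h3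
        obtain ⟨rfl, rfl⟩ := h3
        have h4 := eq_of_heq (Sigma.mk.inj_iff.1 h2).2
        subst h4
        exact ⟨⟨rfl, h1⟩, rfl⟩
    rw [this, Finset.card_image_of_injective]
    intro a b h
    exact eq_of_heq (Sigma.mk.inj_iff.1 h).2

end Pool.Agent.Helper74.SSQ
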