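import Mathlib
import Pool.Agent.Helper74.SSQ.Split

set_option autoImplicit false

namespace Pool.Agent.Helper74.SSQ

open Finset

/-- An outline of a semisymmetric quasigroup: vertices `v` stand for blocks of `wt v` points. -/
structure Outline {V : Type} [Fintype V] (wt : V → ℕ) (f : V → V → V → ℕ) : Prop where
  cyc : ∀ u v z, f u v z = f v z u
  sum : ∀ u v, ∑ z, f u v z = wt u * wt v

/-- Replace the block `v0` by `w` points. -/
def fNew {V : Type} (v0 : V) (w : ℕ) [NeZero w] (f : V → V → V → ℕ)
    (g : Fin w → {v // v ≠ v0} → {v // v ≠ v0} → ℕ) :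
    ({v // v ≠ v0} ⊕ Fin w) → ({v // v ≠ v0} ⊕ Fin w) → ({v // v ≠ v0} ⊕ Fin w) → ℕ
  | .inl u, .inl v, .inl z => f u v z
  | .inl u, .inl v, .inr b => g b u v
  | .inl u, .inr b, .inl z => g b z u
  | .inr b, .inl y, .inl z => g b y z
  | .inr a, .inr b, .inr c => if a + b + c = 0 then 1 else 0
  | .inl _, .inr _, .inr _ => 0
  | .inr _, .inl _, .inr _ => 0
  | .inr _, .inr _, .inl _ => 0

theorem detach : ∀ (N : ℕ) (V : Type) [Fintype V] [DecidableEq V] (wt : V → ℕ)
    (f : V → V → V → ℕ), Outline wt f →
    (∀ v, wt v ≠ 1 → ∀ z, z ≠ v → f v v z = 0) → (∀ v, 1 ≤ wt v) →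
    (Finset.univ.filter (fun v => wt v ≠ 1)).card ≤ N →
    ∃ (W : Type) (_ : Fintype W) (T : W → W → W → Prop),
      (∀ x y z, T x y z → T y z x) ∧ (∀ x y, ∃! z, T x y z) ∧
      Fintype.card W = ∑ v, wt v ∧
      ∃ ι : V → W, (∀ u v, wt u = 1 → wt v = 1 → ι u = ι v → u = v) ∧
        ∀ u v z, wt u = 1 → wt v = 1 → wt z = 1 → f u v z ≠ 0 → T (ι u) (ι v) (ι z) := by
  intro N
  induction N with
  | zero =>
    intro V _ _ wt f hO hg h1 hN
    have hwt : ∀ v, wt v = 1 := by
      intro v
      by_contra h
      have : v ∈ (Finset.univ.filter (fun v => wt v ≠ 1)) := by simp [h]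
      have h2 := Finset.card_pos.2 ⟨v, this⟩
      omega
    refine ⟨V, inferInstance, fun u v z => f u v z ≠ 0, ?_, ?_, ?_, id, ?_, ?_⟩
    · intro x y z h
      rw [← hO.cyc]; exact h
    · intro x y
      have hs := hO.sum x y
      rw [hwt, hwt] at hs
      have hex : ∃ z, f x y z ≠ 0 := by
        by_contra h
        push Not at h
        rw [Finset.sum_eq_zero (fun z _ => h z)] at hs
        omega
      obtain ⟨z, hz⟩ := hex
      refine ⟨z, hz, ?_⟩
      intro z' hz'
      by_contra hne
      have h3 : f x y z + f x y z' ≤ ∑ z, f x y z := by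
        have := Finset.sum_le_sum_of_subset (f := fun z => f x y z)
          (Finset.subset_univ ({z, z'} : Finset V))
        rw [Finset.sum_pair (fun h => hne h.symm)] at this
        exact this
      have h4 : 1 ≤ f x y z := Nat.one_le_iff_ne_zero.2 hz
      have h5 : 1 ≤ f x y z' := Nat.one_le_iff_ne_zero.2 hz'
      omega
    · rw [Finset.sum_congr rfl (fun v _ => hwt v)]
      simp
    · intro u v _ _ h; exact h
    · intro u v z _ _ _ h; exact h
  | succ N ih =>
    intro V _ _ wt f hO hg h1 hN
    by_cases hall : ∀ v, wt v = 1
    · apply ih V wt f hO hg h1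
      have : (Finset.univ.filter (fun v => wt v ≠ 1)) = ∅ := by
        rw [Finset.filter_eq_empty_iff]
        intro v _
        simp [hall v]
      rw [this]; simp
    · push Not at hall
      obtain ⟨v0, hv0⟩ := hall
      obtain ⟨w, hw⟩ : ∃ w, w = wt v0 := ⟨_, rfl⟩
      have hwpos : 0 < w := by rw [hw]; exact h1 v0
      have : NeZero w := ⟨by omega⟩
      -- vanishing facts
      have hz1 : ∀ y, y ≠ v0 → f v0 v0 y = 0 := fun y hy => hg v0 hv0 y hy
      have hz2 : ∀ y, y ≠ v0 → f v0 y v0 = 0 := fun y hy => by
        rw [← hO.cyc]; exact hz1 y hy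
      have hz3 : ∀ y, y ≠ v0 → f y v0 v0 = 0 := fun y hy => by
        rw [hO.cyc]; exact hz1 y hy
      obtain ⟨g, hg1, hg2, hg3⟩ := split_matrix w
        (fun (y z : {v // v ≠ v0}) => f v0 y z) (fun y => wt y.1) (fun z => wt z.1)
        (by
          rintro ⟨y, hy⟩
          have := hO.sum v0 y
          rw [Fintype.sum_eq_add_sum_subtype_ne _ v0, hz2 y hy, zero_add, ← hw] at this
          exact this)
        (by
          rintro ⟨z, hz⟩
          have := hO.sum z v0
          rw [Fintype.sum_eq_add_sum_subtype_ne _ v0, hz3 z hz, zero_add, ← hw] at this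
          simp only
          rw [mul_comm, ← this]
          apply Finset.sum_congr rfl
          intro y _
          rw [hO.cyc z v0 y])
      let V' := {v // v ≠ v0} ⊕ Fin w
      let wt' : V' → ℕ := Sum.elim (fun v => wt v.1) (fun _ => 1)
      let f' : V' → V' → V' → ℕ := fNew v0 w f g
      have hO' : Outline wt' f' := by
        constructor
        · rintro (u | u) (v | v) (z | z)
          · exact hO.cyc _ _ _
          · rfl
          · rfl
          · rfl
          · rfl
          · rfl
          · rfl
          · simp only [f', fNew]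
            have : u + v + z = v + z + u := by rw [add_assoc, add_comm]
            rw [this]
        · rintro (u | u) (v | v)
          · rw [Fintype.sum_sum_type]
            simp only [f', fNew, wt', Sum.elim_inl]
            rw [hg1, hO.cyc v0, ← hO.sum u v, Fintype.sum_eq_add_sum_subtype_ne _ v0, add_comm]
          · rw [Fintype.sum_sum_type]
            simp only [f', fNew, wt', Sum.elim_inl, Sum.elim_inr]
            rw [hg3]
            simp
          · rw [Fintype.sum_sum_type]
            simp only [f', fNew, wt', Sum.elim_inl, Sum.elim_inr]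
            rw [hg2]
            simp
          · rw [Fintype.sum_sum_type]
            simp only [f', fNew, wt', Sum.elim_inr]
            rw [Finset.sum_eq_single (-(u + v))]
            · simp
            · intro b _ hb
              rw [if_neg]
              intro h
              apply hb
              exact eq_neg_of_add_eq_zero_right h
            · intro h; exact absurd (Finset.mem_univ _) h
      have hgood' : ∀ v, wt' v ≠ 1 → ∀ z, z ≠ v → f' v v z = 0 := by
        rintro (v | v) hv (z | z) hzv
        · simp only [wt', Sum.elim_inl] at hv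
          simp only [f', fNew]
          apply hg v.1 hv
          intro h
          apply hzv
          rw [Subtype.ext h]
        · simp only [wt', Sum.elim_inl] at hv
          simp only [f', fNew]
          have h3 : ∑ b, g b v v = 0 := by
            rw [hg1, hO.cyc]
            exact hg v.1 hv v0 (fun h => v.2 h.symm)
          exact (Finset.sum_eq_zero_iff.1 h3) z (Finset.mem_univ _)
        · simp [wt'] at hv
        · simp [wt'] at hv
      have h1' : ∀ v, 1 ≤ wt' v := by
        rintro (v | v)
        · exact h1 _
        · simp [wt']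
      have hN' : (Finset.univ.filter (fun v => wt' v ≠ 1)).card ≤ N := by
        have h3 : (Finset.univ.filter (fun v => wt' v ≠ 1)).card ≤
            ((Finset.univ.filter (fun v => wt v ≠ 1)).erase v0).card := by
          apply Finset.card_le_card_of_injOn
            (fun v' : V' => Sum.elim (fun v => v.1) (fun _ => v0) v')
          · rintro (v | v) hv
            · simp only [Finset.coe_filter, Finset.mem_univ, true_and, Set.mem_ofPred_eq, wt',
                Sum.elim_inl] at hv
              simp only [Sum.elim_inl, Finset.coe_erase, Finset.coe_filter, Finset.mem_univ,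
                true_and, Set.mem_diff, Set.mem_ofPred_eq, Set.mem_singleton_iff]
              exact ⟨hv, v.2⟩
            · simp [wt'] at hv
          · rintro (v | v) hv (u | u) hu h
            · simp only [Sum.elim_inl] at h
              rw [Subtype.ext h]
            · simp [wt'] at hu
            · simp [wt'] at hv
            · simp [wt'] at hv
        have h4 : v0 ∈ (Finset.univ.filter (fun v => wt v ≠ 1)) := by simp [hv0]
        rw [Finset.card_erase_of_mem h4] at h3
        omega
      obtain ⟨W, hW, T, hT1, hT2, hT3, ι, hι1, hι2⟩ := ih V' wt' f' hO' hgood' h1' hN'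
      refine ⟨W, hW, T, hT1, hT2, ?_, fun v => if h : v = v0 then ι (Sum.inr 0)
        else ι (Sum.inl ⟨v, h⟩), ?_, ?_⟩
      · rw [hT3, Fintype.sum_sum_type, Fintype.sum_eq_add_sum_subtype_ne _ v0]
        simp only [wt', Sum.elim_inl, Sum.elim_inr]
        rw [add_comm]
        congr 1
        simp [hw]
      · intro u v hu hv h
        have hu0 : u ≠ v0 := by rintro rfl; exact hv0 hu
        have hv0' : v ≠ v0 := by rintro rfl; exact hv0 hv
        simp only [hu0, hv0', dite_false] at h
        have := hι1 _ _ (by simpa [wt'] using hu) (by simpa [wt'] using hv) h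
        exact congrArg Subtype.val (Sum.inl.inj this)
      · intro u v z hu hv hz h
        have hu0 : u ≠ v0 := by rintro rfl; exact hv0 hu
        have hv0' : v ≠ v0 := by rintro rfl; exact hv0 hv
        have hz0 : z ≠ v0 := by rintro rfl; exact hv0 hz
        simp only [hu0, hv0', hz0, dite_false]
        apply hι2
        · simpa [wt'] using hu
        · simpa [wt'] using hv
        · simpa [wt'] using hz
        · exact h

end Pool.Agent.Helper74.SSQ
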