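import Mathlib
import Pool.Agent.Helper74.SSQ.Split

set_option autoImplicit false
set_option linter.unusedSectionVars false

namespace Pool.Agent.Helper74.SSQ

open Finset

theorem cfs {α β : Type} [Fintype α] [Fintype β] (p : α ⊕ β → Prop) [DecidablePred p] :
    (Finset.univ.filter p).card = (Finset.univ.filter (fun a => p (.inl a))).card +
      (Finset.univ.filter (fun b => p (.inr b))).card := by
  rw [Finset.card_filter, Finset.card_filter, Finset.card_filter, Fintype.sum_sum_type]

theorem card_fst_fiber {α : Type} [Fintype α] {D q : ℕ} (ε : α ≃ Fin D × Fin q) (d : Fin D) :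
    (Finset.univ.filter (fun a => (ε a).1 = d)).card = q := by
  classical
  have : (Finset.univ.filter (fun a => (ε a).1 = d)) =
      Finset.univ.image (fun j : Fin q => ε.symm (d, j)) := by
    ext a
    simp only [Finset.mem_filter, Finset.mem_univ, true_and, Finset.mem_image]
    constructor
    · rintro rfl
      exact ⟨(ε a).2, by simp⟩
    · rintro ⟨j, rfl⟩
      simp
  rw [this, Finset.card_image_of_injective]
  · simp
  · intro i j h
    simpa using h

/-- full groups -/
abbrev PadA (X : Type) (u : X → ℕ) (q : ℕ) := Σ x : X, Fin (u x / q) × Fin q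
/-- pool -/
abbrev PadB (X : Type) (u : X → ℕ) (q : ℕ) := Σ x : X, Fin (u x % q)
/-- all edges -/
abbrev Et (E X : Type) (u v : X → ℕ) (q g : ℕ) :=
  E ⊕ ((PadA X u q ⊕ PadB X u q) ⊕ ((PadA X v q ⊕ PadB X v q) ⊕
    ((Fin (g / q) × Fin q) ⊕ Fin (g % q))))
/-- vertices of one side -/
abbrev Yt (X : Type) (u : X → ℕ) (q g D : ℕ) :=
  X ⊕ ((Σ x : X, Fin (u x / q)) ⊕ (Fin (g / q) ⊕ Fin D))

theorem sig1 {X : Type} [Fintype X] [DecidableEq X] (u : X → ℕ) (q : ℕ) (x : X) :
    (Finset.univ.filter (fun a : PadA X u q => a.1 = x)).card = u x / q * q := by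
  rw [Finset.card_filter, Fintype.sum_sigma, Finset.sum_eq_single x]
  · simp
  · intro y _ hy
    apply Finset.sum_eq_zero
    intro a _
    exact if_neg hy
  · intro h; exact absurd (Finset.mem_univ _) h

theorem sig2 {X : Type} [Fintype X] [DecidableEq X] (u : X → ℕ) (q : ℕ) (x : X) :
    (Finset.univ.filter (fun a : PadB X u q => a.1 = x)).card = u x % q := by
  rw [Finset.card_filter, Fintype.sum_sigma, Finset.sum_eq_single x]
  · simp
  · intro y _ hy
    apply Finset.sum_eq_zero
    intro a _
    exact if_neg hy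
  · intro h; exact absurd (Finset.mem_univ _) h

theorem sig3 {X : Type} [Fintype X] [DecidableEq X] (u : X → ℕ) (q : ℕ)
    (p : Σ x : X, Fin (u x / q)) :
    (Finset.univ.filter (fun a : PadA X u q =>
      (⟨a.1, a.2.1⟩ : Σ x : X, Fin (u x / q)) = p)).card = q := by
  classical
  obtain ⟨x, k⟩ := p
  have : (Finset.univ.filter (fun a : PadA X u q =>
      (⟨a.1, a.2.1⟩ : Σ x : X, Fin (u x / q)) = ⟨x, k⟩)) =
      Finset.univ.image (fun j : Fin q => (⟨x, (k, j)⟩ : PadA X u q)) := by
    ext ⟨y, k', j⟩
    simp only [Finset.mem_filter, Finset.mem_univ, true_and, Finset.mem_image]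
    constructor
    · intro h
      obtain ⟨h1, h2⟩ := Sigma.mk.inj_iff.1 h
      subst h1
      have := eq_of_heq h2
      subst this
      exact ⟨j, rfl⟩
    · rintro ⟨j', h⟩
      obtain ⟨h1, h2⟩ := Sigma.mk.inj_iff.1 h
      subst h1
      have := eq_of_heq h2
      simp only [Prod.mk.injEq] at this
      rw [this.1]
  rw [this, Finset.card_image_of_injective]
  · simp
  · intro i j h
    have := eq_of_heq (Sigma.mk.inj_iff.1 h).2
    simpa using this

/-- one side of the bipartite graph: the `u`-pads are attached to dummies, the `v`-pads to `X` -/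
def lmap {E X : Type} (s : E → X) (u v : X → ℕ) (q g D : ℕ)
    (ε : (PadB X u q ⊕ Fin (g % q)) ≃ Fin D × Fin q) : Et E X u v q g → Yt X u q g D
  | .inl e => .inl (s e)
  | .inr (.inl (.inl a)) => .inr (.inl ⟨a.1, a.2.1⟩)
  | .inr (.inl (.inr b)) => .inr (.inr (.inr (ε (.inl b)).1))
  | .inr (.inr (.inl (.inl a))) => .inl a.1
  | .inr (.inr (.inl (.inr b))) => .inl b.1
  | .inr (.inr (.inr (.inl a))) => .inr (.inr (.inl a.1))
  | .inr (.inr (.inr (.inr b))) => .inr (.inr (.inr (ε (.inr b)).1))

/-- swap the two kinds of pads -/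
def swp {E X : Type} (u v : X → ℕ) (q g : ℕ) : Et E X u v q g → Et E X v u q g
  | .inl e => .inl e
  | .inr (.inl a) => .inr (.inr (.inl a))
  | .inr (.inr (.inl a)) => .inr (.inl a)
  | .inr (.inr (.inr a)) => .inr (.inr (.inr a))

theorem swp_swp {E X : Type} (u v : X → ℕ) (q g : ℕ) (e : Et E X u v q g) :
    swp v u q g (swp u v q g e) = e := by
  rcases e with e | (a | (a | a)) <;> rfl

/-- equivalence -/
def swpE {E X : Type} (u v : X → ℕ) (q g : ℕ) : Et E X u v q g ≃ Et E X v u q g where
  toFun := swp u v q g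
  invFun := swp v u q g
  left_inv := swp_swp u v q g
  right_inv := swp_swp v u q g

theorem lmap_fiber {E X : Type} [Fintype E] [DecidableEq E] [Fintype X] [DecidableEq X]
    (s : E → X) (u v : X → ℕ) (q g D W : ℕ)
    (ε : (PadB X u q ⊕ Fin (g % q)) ≃ Fin D × Fin q)
    (hs : ∀ x, (Finset.univ.filter (fun e => s e = x)).card + v x = q * W) (y : Yt X u q g D) :
    (Finset.univ.filter (fun e => lmap s u v q g D ε e = y)).card =
      q * (Sum.elim (fun _ => W) (fun _ => 1) : Yt X u q g D → ℕ) y := by
  rw [cfs, cfs, cfs, cfs, cfs, cfs]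
  rcases y with x | (p | (k | d))
  · simp only [lmap, Sum.inl.injEq, reduceCtorEq, Finset.filter_false, Finset.card_empty,
      Sum.elim_inl]
    rw [sig1, sig2, ← hs x]
    have := Nat.div_add_mod (v x) q
    rw [mul_comm] at this
    omega
  · simp only [lmap, Sum.inr.injEq, Sum.inl.injEq, reduceCtorEq, Finset.filter_false,
      Finset.card_empty, Sum.elim_inr]
    rw [sig3]
    omega
  · simp only [lmap, Sum.inr.injEq, Sum.inl.injEq, reduceCtorEq, Finset.filter_false,
      Finset.card_empty, Sum.elim_inr]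
    have := card_fst_fiber (Equiv.refl (Fin (g / q) × Fin q)) k
    simp only [Equiv.refl_apply] at this
    rw [this]
    omega
  · simp only [lmap, Sum.inr.injEq, reduceCtorEq, Finset.filter_false,
      Finset.card_empty, Sum.elim_inr]
    have := card_fst_fiber ε d
    rw [cfs] at this
    omega

theorem exists_eps {X : Type} [Fintype X] (u : X → ℕ) (q g D : ℕ) (hu : ∑ x, u x + g = q * D) :
    ∃ DL, Fintype.card (PadB X u q ⊕ Fin (g % q)) = DL * q := by
  have h1 : Fintype.card (PadB X u q ⊕ Fin (g % q)) = ∑ x, u x % q + g % q := by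
    simp
  have h2 : q ∣ ∑ x, u x % q + g % q := by
    rw [Nat.dvd_iff_mod_eq_zero]
    have h3 : (∑ x, u x % q + g % q) % q = (∑ x, u x + g) % q := by
      rw [Nat.add_mod, Finset.sum_nat_mod, Nat.add_mod (∑ x, u x)]
      rw [Finset.sum_nat_mod (f := fun x => u x)]
      simp
    rw [h3, hu]
    simp
  obtain ⟨d, hd⟩ := h2
  exact ⟨d, by rw [h1, hd, mul_comm]⟩

section counts

variable {E X : Type} [Fintype E] [DecidableEq E] [Fintype X] [DecidableEq X]

/-- number of `u`-pads at `x` of colour `i` -/
def cntU (u v : X → ℕ) (q g : ℕ) (c : Et E X u v q g → Fin q) (i : Fin q) (x : X) : ℕ :=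
  (Finset.univ.filter (fun a : PadA X u q => a.1 = x ∧ c (.inr (.inl (.inl a))) = i)).card +
  (Finset.univ.filter (fun a : PadB X u q => a.1 = x ∧ c (.inr (.inl (.inr a))) = i)).card

/-- number of `v`-pads at `x` of colour `i` -/
def cntV (u v : X → ℕ) (q g : ℕ) (c : Et E X u v q g → Fin q) (i : Fin q) (x : X) : ℕ :=
  (Finset.univ.filter (fun a : PadA X v q => a.1 = x ∧ c (.inr (.inr (.inl (.inl a)))) = i)).card +
  (Finset.univ.filter (fun a : PadB X v q => a.1 = x ∧ c (.inr (.inr (.inl (.inr a)))) = i)).card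

/-- number of `g`-pads of colour `i` -/
def cntG (u v : X → ℕ) (q g : ℕ) (c : Et E X u v q g → Fin q) (i : Fin q) : ℕ :=
  (Finset.univ.filter (fun a : Fin (g / q) × Fin q => c (.inr (.inr (.inr (.inl a)))) = i)).card +
  (Finset.univ.filter (fun a : Fin (g % q) => c (.inr (.inr (.inr (.inr a)))) = i)).card

theorem sum_cntU (u v : X → ℕ) (q g : ℕ) (c : Et E X u v q g → Fin q) (x : X) :
    ∑ i, cntU u v q g c i x = u x := by
  unfold cntU
  rw [Finset.sum_add_distrib]
  have h1 : ∑ i, (Finset.univ.filter (fun a : PadA X u q =>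
      a.1 = x ∧ c (.inr (.inl (.inl a))) = i)).card = u x / q * q := by
    rw [← sig1 u q x, Finset.card_eq_sum_card_fiberwise
      (f := fun a => c (.inr (.inl (.inl a)))) (t := Finset.univ) (by intro _ _; simp)]
    apply Finset.sum_congr rfl
    intro i _
    rw [Finset.filter_filter]
  have h2 : ∑ i, (Finset.univ.filter (fun a : PadB X u q =>
      a.1 = x ∧ c (.inr (.inl (.inr a))) = i)).card = u x % q := by
    rw [← sig2 u q x, Finset.card_eq_sum_card_fiberwise
      (f := fun a => c (.inr (.inl (.inr a)))) (t := Finset.univ) (by intro _ _; simp)]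
    apply Finset.sum_congr rfl
    intro i _
    rw [Finset.filter_filter]
  rw [h1, h2, mul_comm]
  exact Nat.div_add_mod (u x) q

theorem sum_cntG (u v : X → ℕ) (q g : ℕ) (c : Et E X u v q g → Fin q) :
    ∑ i, cntG u v q g c i = g := by
  unfold cntG
  rw [Finset.sum_add_distrib]
  have h1 : ∑ i, (Finset.univ.filter (fun a : Fin (g / q) × Fin q =>
      c (.inr (.inr (.inr (.inl a)))) = i)).card = g / q * q := by
    have := Finset.card_eq_sum_card_fiberwise (s := (Finset.univ : Finset (Fin (g / q) × Fin q)))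
      (f := fun a => c (.inr (.inr (.inr (.inl a))))) (t := Finset.univ) (by intro _ _; simp)
    rw [← this]
    simp
  have h2 : ∑ i, (Finset.univ.filter (fun a : Fin (g % q) =>
      c (.inr (.inr (.inr (.inr a)))) = i)).card = g % q := by
    have := Finset.card_eq_sum_card_fiberwise (s := (Finset.univ : Finset (Fin (g % q))))
      (f := fun a => c (.inr (.inr (.inr (.inr a))))) (t := Finset.univ) (by intro _ _; simp)
    rw [← this]
    simp
  rw [h1, h2, mul_comm]
  exact Nat.div_add_mod g q

/-- left degrees -/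
theorem lmap_deg (s : E → X) (u v : X → ℕ) (q g D W : ℕ)
    (ε : (PadB X u q ⊕ Fin (g % q)) ≃ Fin D × Fin q)
    (c : Et E X u v q g → Fin q)
    (hc : ∀ y i, (Finset.univ.filter (fun e => lmap s u v q g D ε e = y ∧ c e = i)).card =
      (Sum.elim (fun _ => W) (fun _ => 1) : Yt X u q g D → ℕ) y) (i : Fin q) (x : X) :
    (Finset.univ.filter (fun e => s e = x ∧ c (.inl e) = i)).card + cntV u v q g c i x = W := by
  have h := hc (.inl x) i
  rw [cfs, cfs, cfs, cfs, cfs, cfs] at h
  simp only [lmap, Sum.inl.injEq, reduceCtorEq, false_and, Finset.filter_false,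
    Finset.card_empty, Sum.elim_inl] at h
  unfold cntV
  omega

theorem lmap_low (s : E → X) (u v : X → ℕ) (q g D W : ℕ)
    (ε : (PadB X u q ⊕ Fin (g % q)) ≃ Fin D × Fin q)
    (c : Et E X u v q g → Fin q)
    (hc : ∀ y i, (Finset.univ.filter (fun e => lmap s u v q g D ε e = y ∧ c e = i)).card =
      (Sum.elim (fun _ => W) (fun _ => 1) : Yt X u q g D → ℕ) y) (i : Fin q) (x : X) :
    u x / q ≤ cntU u v q g c i x := by
  have h1 : ∀ k : Fin (u x / q), ∃ a : PadA X u q, (⟨a.1, a.2.1⟩ : Σ x : X, Fin (u x / q)) = ⟨x, k⟩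
      ∧ c (.inr (.inl (.inl a))) = i := by
    intro k
    have h := hc (.inr (.inl ⟨x, k⟩)) i
    rw [cfs, cfs, cfs, cfs, cfs, cfs] at h
    simp only [lmap, Sum.inr.injEq, Sum.inl.injEq, reduceCtorEq, false_and, Finset.filter_false,
      Finset.card_empty, Sum.elim_inr, add_zero, zero_add] at h
    rw [Finset.card_eq_one] at h
    obtain ⟨a, ha⟩ := h
    have : a ∈ (Finset.univ.filter (fun a : PadA X u q =>
      (⟨a.1, a.2.1⟩ : Σ x : X, Fin (u x / q)) = ⟨x, k⟩ ∧ c (.inr (.inl (.inl a))) = i)) := by
      rw [ha]; simp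
    simp only [Finset.mem_filter, Finset.mem_univ, true_and] at this
    exact ⟨a, this.1, this.2⟩
  choose a ha1 ha2 using h1
  have h3 : (Finset.univ : Finset (Fin (u x / q))).card ≤ (Finset.univ.filter
      (fun a : PadA X u q => a.1 = x ∧ c (.inr (.inl (.inl a))) = i)).card := by
    apply Finset.card_le_card_of_injOn a
    · intro k _
      simp only [Finset.coe_filter, Finset.mem_univ, true_and, Set.mem_ofPred_eq]
      exact ⟨(Sigma.mk.inj_iff.1 (ha1 k)).1, ha2 k⟩
    · intro k _ k' _ h
      have h5 := ha1 k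
      rw [h, ha1 k'] at h5
      have := eq_of_heq (Sigma.mk.inj_iff.1 h5).2
      exact this.symm
  unfold cntU
  simp only [Finset.card_univ, Fintype.card_fin] at h3
  omega

theorem lmap_lowG (s : E → X) (u v : X → ℕ) (q g D W : ℕ)
    (ε : (PadB X u q ⊕ Fin (g % q)) ≃ Fin D × Fin q)
    (c : Et E X u v q g → Fin q)
    (hc : ∀ y i, (Finset.univ.filter (fun e => lmap s u v q g D ε e = y ∧ c e = i)).card =
      (Sum.elim (fun _ => W) (fun _ => 1) : Yt X u q g D → ℕ) y) (i : Fin q) :
    g / q ≤ cntG u v q g c i := by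
  have h1 : ∀ k : Fin (g / q), ∃ a : Fin (g / q) × Fin q, a.1 = k
      ∧ c (.inr (.inr (.inr (.inl a)))) = i := by
    intro k
    have h := hc (.inr (.inr (.inl k))) i
    rw [cfs, cfs, cfs, cfs, cfs, cfs] at h
    simp only [lmap, Sum.inr.injEq, Sum.inl.injEq, reduceCtorEq, false_and, Finset.filter_false,
      Finset.card_empty, Sum.elim_inr, add_zero, zero_add] at h
    rw [Finset.card_eq_one] at h
    obtain ⟨a, ha⟩ := h
    have : a ∈ (Finset.univ.filter (fun a : Fin (g / q) × Fin q =>
      a.1 = k ∧ c (.inr (.inr (.inr (.inl a)))) = i)) := by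
      rw [ha]; simp
    simp only [Finset.mem_filter, Finset.mem_univ, true_and] at this
    exact ⟨a, this.1, this.2⟩
  choose a ha1 ha2 using h1
  have h3 : (Finset.univ : Finset (Fin (g / q))).card ≤ (Finset.univ.filter
      (fun a : Fin (g / q) × Fin q => c (.inr (.inr (.inr (.inl a)))) = i)).card := by
    apply Finset.card_le_card_of_injOn a
    · intro k _
      simp only [Finset.coe_filter, Finset.mem_univ, true_and, Set.mem_ofPred_eq]
      exact ha2 k
    · intro k _ k' _ h
      have h5 := ha1 k
      rw [h, ha1 k'] at h5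
      exact h5.symm
  unfold cntG
  simp only [Finset.card_univ, Fintype.card_fin] at h3
  omega

/-- total number of dummies -/
theorem lmap_total (s : E → X) (u v : X → ℕ) (q g D W D0 : ℕ) (hq : 0 < q)
    (ε : (PadB X u q ⊕ Fin (g % q)) ≃ Fin D × Fin q)
    (hu : ∑ x, u x + g = q * D0)
    (c : Et E X u v q g → Fin q)
    (hc : ∀ y i, (Finset.univ.filter (fun e => lmap s u v q g D ε e = y ∧ c e = i)).card =
      (Sum.elim (fun _ => W) (fun _ => 1) : Yt X u q g D → ℕ) y) (i : Fin q) :
    ∑ x, cntU u v q g c i x + cntG u v q g c i = D0 := by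
  -- total number of edges of colour i
  have h1 : (Finset.univ.filter (fun e => c e = i)).card =
      Fintype.card X * W + (∑ x, u x / q + g / q + D) := by
    rw [Finset.card_eq_sum_card_fiberwise (f := lmap s u v q g D ε) (t := Finset.univ)
      (by intro _ _; simp)]
    have : ∀ y, (Finset.filter (fun a => lmap s u v q g D ε a = y)
        (Finset.univ.filter (fun e => c e = i))).card =
        (Sum.elim (fun _ => W) (fun _ => 1) : Yt X u q g D → ℕ) y := by
      intro y
      rw [Finset.filter_filter, ← hc y i]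
      congr 1
      ext e
      simp only [Finset.mem_filter, Finset.mem_univ, true_and]
      tauto
    rw [Finset.sum_congr rfl (fun y _ => this y), Fintype.sum_sum_type]
    simp only [Sum.elim_inl, Sum.elim_inr, Finset.sum_const, Finset.card_univ,
      Fintype.card_sum, Fintype.card_sigma, Fintype.card_fin, smul_eq_mul, mul_one]
    ring
  have h2 : (Finset.univ.filter (fun e => c e = i)).card =
      (∑ x, ((Finset.univ.filter (fun e => s e = x ∧ c (.inl e) = i)).card +
        cntV u v q g c i x)) + (∑ x, cntU u v q g c i x + cntG u v q g c i) := by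
    rw [cfs, cfs, cfs, cfs, cfs, cfs]
    rw [Finset.sum_add_distrib]
    unfold cntU cntV cntG
    rw [Finset.sum_add_distrib, Finset.sum_add_distrib]
    have e1 : (Finset.univ.filter (fun e : E => c (.inl e) = i)).card =
        ∑ x, (Finset.univ.filter (fun e => s e = x ∧ c (.inl e) = i)).card := by
      rw [Finset.card_eq_sum_card_fiberwise (f := s) (t := Finset.univ) (by intro _ _; simp)]
      apply Finset.sum_congr rfl
      intro x _
      rw [Finset.filter_filter]
      congr 1; ext e; simp only [Finset.mem_filter, Finset.mem_univ, true_and]; tauto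
    have e2 : (Finset.univ.filter (fun a : PadA X u q => c (.inr (.inl (.inl a))) = i)).card =
        ∑ x, (Finset.univ.filter (fun a : PadA X u q =>
          a.1 = x ∧ c (.inr (.inl (.inl a))) = i)).card := by
      rw [Finset.card_eq_sum_card_fiberwise (f := fun a => a.1) (t := Finset.univ)
        (by intro _ _; simp)]
      apply Finset.sum_congr rfl
      intro x _
      rw [Finset.filter_filter]
      congr 1; ext e; simp only [Finset.mem_filter, Finset.mem_univ, true_and]; tauto
    have e3 : (Finset.univ.filter (fun a : PadB X u q => c (.inr (.inl (.inr a))) = i)).card =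
        ∑ x, (Finset.univ.filter (fun a : PadB X u q =>
          a.1 = x ∧ c (.inr (.inl (.inr a))) = i)).card := by
      rw [Finset.card_eq_sum_card_fiberwise (f := fun a => a.1) (t := Finset.univ)
        (by intro _ _; simp)]
      apply Finset.sum_congr rfl
      intro x _
      rw [Finset.filter_filter]
      congr 1; ext e; simp only [Finset.mem_filter, Finset.mem_univ, true_and]; tauto
    have e4 : (Finset.univ.filter (fun a : PadA X v q =>
        c (.inr (.inr (.inl (.inl a)))) = i)).card =
        ∑ x, (Finset.univ.filter (fun a : PadA X v q =>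
          a.1 = x ∧ c (.inr (.inr (.inl (.inl a)))) = i)).card := by
      rw [Finset.card_eq_sum_card_fiberwise (f := fun a => a.1) (t := Finset.univ)
        (by intro _ _; simp)]
      apply Finset.sum_congr rfl
      intro x _
      rw [Finset.filter_filter]
      congr 1; ext e; simp only [Finset.mem_filter, Finset.mem_univ, true_and]; tauto
    have e5 : (Finset.univ.filter (fun a : PadB X v q =>
        c (.inr (.inr (.inl (.inr a)))) = i)).card =
        ∑ x, (Finset.univ.filter (fun a : PadB X v q =>
          a.1 = x ∧ c (.inr (.inr (.inl (.inr a)))) = i)).card := by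
      rw [Finset.card_eq_sum_card_fiberwise (f := fun a => a.1) (t := Finset.univ)
        (by intro _ _; simp)]
      apply Finset.sum_congr rfl
      intro x _
      rw [Finset.filter_filter]
      congr 1; ext e; simp only [Finset.mem_filter, Finset.mem_univ, true_and]; tauto
    rw [e1, e2, e3, e4, e5]
    ring
  rw [Finset.sum_congr rfl (fun x _ => lmap_deg s u v q g D W ε c hc i x)] at h2
  simp only [Finset.sum_const, Finset.card_univ, smul_eq_mul] at h2
  -- number of dummies
  have h3 : ∑ x, u x / q + g / q + D = D0 := by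
    have h4 : D * q = ∑ x, u x % q + g % q := by
      have := Fintype.card_congr ε
      simp only [Fintype.card_sum, Fintype.card_sigma, Fintype.card_fin,
        Fintype.card_prod] at this
      exact this.symm
    have h5 : q * (∑ x, u x / q + g / q + D) = q * D0 := by
      rw [← hu, mul_add, mul_add, mul_comm q D, h4, Finset.mul_sum]
      have h6 : ∑ x, u x = ∑ x, (q * (u x / q)) + ∑ x, u x % q := by
        rw [← Finset.sum_add_distrib]
        apply Finset.sum_congr rfl
        intro x _
        exact (Nat.div_add_mod (u x) q).symm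
      have h7 := Nat.div_add_mod g q
      rw [h6]
      omega
    exact Nat.eq_of_mul_eq_mul_left hq h5
  omega

end counts

theorem cnt_swap {E X : Type} [Fintype E] [DecidableEq E] [Fintype X] [DecidableEq X]
    (u v : X → ℕ) (q g : ℕ) (c : Et E X u v q g → Fin q) (i : Fin q) (x : X) :
    cntU v u q g (fun e => c (swp v u q g e)) i x = cntV u v q g c i x := rfl

theorem cnt_swap' {E X : Type} [Fintype E] [DecidableEq E] [Fintype X] [DecidableEq X]
    (u v : X → ℕ) (q g : ℕ) (c : Et E X u v q g → Fin q) (i : Fin q) (x : X) :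
    cntV v u q g (fun e => c (swp v u q g e)) i x = cntU u v q g c i x := rfl

theorem cnt_swapG {E X : Type} [Fintype E] [DecidableEq E] [Fintype X] [DecidableEq X]
    (u v : X → ℕ) (q g : ℕ) (c : Et E X u v q g → Fin q) (i : Fin q) :
    cntG v u q g (fun e => c (swp v u q g e)) i = cntG u v q g c i := rfl

/-- Balanced splitting of a partial digraph with pads. -/
theorem split_S {E X : Type} [Fintype E] [DecidableEq E] [Fintype X] [DecidableEq X]
    (s t : E → X) (q : ℕ) (hq : 0 < q) (W D g : ℕ) (u v : X → ℕ)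
    (hs : ∀ x, (Finset.univ.filter (fun e => s e = x)).card + v x = q * W)
    (ht : ∀ x, (Finset.univ.filter (fun e => t e = x)).card + u x = q * W)
    (hu : ∑ x, u x + g = q * D) (hv : ∑ x, v x + g = q * D) :
    ∃ (c : E → Fin q) (u' v' : Fin q → X → ℕ) (g' : Fin q → ℕ),
      (∀ i x, (Finset.univ.filter (fun e => s e = x ∧ c e = i)).card + v' i x = W) ∧
      (∀ i x, (Finset.univ.filter (fun e => t e = x ∧ c e = i)).card + u' i x = W) ∧
      (∀ i, ∑ x, u' i x + g' i = D) ∧ (∀ i, ∑ x, v' i x + g' i = D) ∧
      (∀ x, ∑ i, u' i x = u x) ∧ (∀ x, ∑ i, v' i x = v x) ∧ (∑ i, g' i = g) ∧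
      (∀ i x, u x / q ≤ u' i x) ∧ (∀ i x, v x / q ≤ v' i x) ∧ (∀ i, g / q ≤ g' i) := by
  classical
  obtain ⟨DL, hDL⟩ := exists_eps u q g D hu
  obtain ⟨DR, hDR⟩ := exists_eps v q g D hv
  let eL : (PadB X u q ⊕ Fin (g % q)) ≃ Fin DL × Fin q :=
    Fintype.equivOfCardEq (by rw [hDL]; simp)
  let eR : (PadB X v q ⊕ Fin (g % q)) ≃ Fin DR × Fin q :=
    Fintype.equivOfCardEq (by rw [hDR]; simp)
  have hr : ∀ y, (Finset.univ.filter
      (fun e => lmap t v u q g DR eR (swp u v q g e) = y)).card =
      q * (Sum.elim (fun _ => W) (fun _ => 1) : Yt X v q g DR → ℕ) y := by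
    intro y
    rw [← lmap_fiber t v u q g DR W eR ht y]
    apply Finset.card_bij (fun e _ => swp u v q g e)
    · intro e he
      simpa using he
    · intro e _ e' _ h
      have := congrArg (swp v u q g) h
      rwa [swp_swp, swp_swp] at this
    · intro e he
      refine ⟨swp v u q g e, ?_, swp_swp _ _ _ _ _⟩
      simp only [Finset.mem_filter, Finset.mem_univ, true_and] at he ⊢
      rw [swp_swp]
      exact he
  obtain ⟨c, hc1, hc2⟩ := split_color (lmap s u v q g DL eL)
    (fun e => lmap t v u q g DR eR (swp u v q g e)) q _ _ (lmap_fiber s u v q g DL W eL hs) hr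
  have hc2' : ∀ y i, (Finset.univ.filter (fun e : Et E X v u q g =>
      lmap t v u q g DR eR e = y ∧ c (swp v u q g e) = i)).card =
      (Sum.elim (fun _ => W) (fun _ => 1) : Yt X v q g DR → ℕ) y := by
    intro y i
    rw [← hc2 y i]
    apply Finset.card_bij (fun e _ => swp v u q g e)
    · intro e he
      simp only [Finset.mem_filter, Finset.mem_univ, true_and] at he ⊢
      rw [swp_swp]
      exact he
    · intro e _ e' _ h
      have := congrArg (swp u v q g) h
      rwa [swp_swp, swp_swp] at this
    · intro e he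
      refine ⟨swp u v q g e, ?_, swp_swp _ _ _ _ _⟩
      simp only [Finset.mem_filter, Finset.mem_univ, true_and] at he ⊢
      rw [swp_swp]
      exact he
  refine ⟨fun e => c (.inl e), cntU u v q g c, cntV u v q g c, cntG u v q g c,
    ?_, ?_, ?_, ?_, ?_, ?_, ?_, ?_, ?_, ?_⟩
  · intro i x
    exact lmap_deg s u v q g DL W eL c hc1 i x
  · intro i x
    exact lmap_deg t v u q g DR W eR (fun e => c (swp v u q g e)) hc2' i x
  · intro i
    exact lmap_total s u v q g DL W D hq eL hu c hc1 i
  · intro i
    exact lmap_total t v u q g DR W D hq eR hv (fun e => c (swp v u q g e)) hc2' i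
  · intro x
    exact sum_cntU u v q g c x
  · intro x
    exact sum_cntU v u q g (fun e => c (swp v u q g e)) x
  · exact sum_cntG u v q g c
  · intro i x
    exact lmap_low s u v q g DL W eL c hc1 i x
  · intro i x
    exact lmap_low t v u q g DR W eR (fun e => c (swp v u q g e)) hc2' i x
  · intro i
    exact lmap_lowG s u v q g DL W eL c hc1 i

end Pool.Agent.Helper74.SSQ
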