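import Mathlib
import Pool.Agent.Helper74.SSQ.SplitS

set_option autoImplicit false
set_option linter.unusedSectionVars false

namespace Pool.Agent.Helper74.SSQ

open Finset

/-- Partial semisymmetric quasigroup given by its set of triples. -/
structure PSSQ {X : Type} (T : X → X → X → Prop) : Prop where
  cyc : ∀ x y z, T x y z → T y z x
  uniq : ∀ x y z z', T x y z → T x y z' → z = z'

/-- undefined products -/
abbrev Lv {X : Type} (T : X → X → X → Prop) := {p : X × X // ¬ ∃ z, T p.1 p.2 z}

open Classical in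
noncomputable instance instFintypeLv {X : Type} [Fintype X] (T : X → X → X → Prop) :
    Fintype (Lv T) :=
  inferInstanceAs (Fintype {p : X × X // ¬ ∃ z, T p.1 p.2 z})

open Classical in
/-- number of undefined products in row `x` -/
noncomputable def odeg {X : Type} [Fintype X] (T : X → X → X → Prop) (x : X) : ℕ :=
  (Finset.univ.filter (fun y => ¬ ∃ z, T x y z)).card

open Classical in
/-- number of undefined products in column `x` -/
noncomputable def ideg {X : Type} [Fintype X] (T : X → X → X → Prop) (x : X) : ℕ :=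
  (Finset.univ.filter (fun y => ¬ ∃ z, T y x z)).card

theorem odeg_eq_card {X : Type} [Fintype X] [DecidableEq X] (T : X → X → X → Prop) (x : X) :
    (Finset.univ.filter (fun e : Lv T => e.1.1 = x)).card = odeg T x := by
  classical
  unfold odeg
  apply Finset.card_bij (fun e _ => e.1.2)
  · intro e he
    simp only [Finset.mem_filter, Finset.mem_univ, true_and] at he ⊢
    rw [← he]
    exact e.2
  · intro e he e' he' h
    simp only [Finset.mem_filter, Finset.mem_univ, true_and] at he he'
    apply Subtype.ext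
    apply Prod.ext
    · rw [he, he']
    · exact h
  · intro y hy
    simp only [Finset.mem_filter, Finset.mem_univ, true_and] at hy
    refine ⟨⟨(x, y), hy⟩, ?_, rfl⟩
    simp

theorem ideg_eq_card {X : Type} [Fintype X] [DecidableEq X] (T : X → X → X → Prop) (x : X) :
    (Finset.univ.filter (fun e : Lv T => e.1.2 = x)).card = ideg T x := by
  classical
  unfold ideg
  apply Finset.card_bij (fun e _ => e.1.1)
  · intro e he
    simp only [Finset.mem_filter, Finset.mem_univ, true_and] at he ⊢
    rw [← he]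
    exact e.2
  · intro e he e' he' h
    simp only [Finset.mem_filter, Finset.mem_univ, true_and] at he he'
    apply Subtype.ext
    apply Prod.ext
    · exact h
    · rw [he, he']
  · intro y hy
    simp only [Finset.mem_filter, Finset.mem_univ, true_and] at hy
    refine ⟨⟨(y, x), hy⟩, ?_, rfl⟩
    simp

theorem odeg_eq_ideg {X : Type} [Fintype X] (T : X → X → X → Prop) (hT : PSSQ T) (x : X) :
    odeg T x = ideg T x := by
  classical
  have h1 : (Finset.univ.filter (fun y => ∃ z, T x y z)).card =
      (Finset.univ.filter (fun y => ∃ z, T y x z)).card := by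
    apply le_antisymm
    · have hch : ∀ y : X, ∃ z, (∃ z, T x y z) → T x y z := by
        intro y
        by_cases h : ∃ z, T x y z
        · obtain ⟨z, hz⟩ := h; exact ⟨z, fun _ => hz⟩
        · exact ⟨y, fun h' => absurd h' h⟩
      choose φ hφ using hch
      apply Finset.card_le_card_of_injOn φ
      · intro y hy
        simp only [Finset.coe_filter, Finset.mem_univ, true_and, Set.mem_ofPred_eq] at hy ⊢
        exact ⟨y, hT.cyc _ _ _ (hT.cyc _ _ _ (hφ y hy))⟩
      · intro y hy y' hy' h
        simp only [Finset.coe_filter, Finset.mem_univ, true_and, Set.mem_ofPred_eq] at hy hy'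
        have h1 := hT.cyc _ _ _ (hT.cyc _ _ _ (hφ y hy))
        have h2 := hT.cyc _ _ _ (hT.cyc _ _ _ (hφ y' hy'))
        rw [← h] at h2
        exact hT.uniq _ _ _ _ h1 h2
    · have hch : ∀ y : X, ∃ z, (∃ z, T y x z) → T y x z := by
        intro y
        by_cases h : ∃ z, T y x z
        · obtain ⟨z, hz⟩ := h; exact ⟨z, fun _ => hz⟩
        · exact ⟨y, fun h' => absurd h' h⟩
      choose φ hφ using hch
      apply Finset.card_le_card_of_injOn φ
      · intro y hy
        simp only [Finset.coe_filter, Finset.mem_univ, true_and, Set.mem_ofPred_eq] at hy ⊢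
        exact ⟨y, hT.cyc _ _ _ (hφ y hy)⟩
      · intro y hy y' hy' h
        simp only [Finset.coe_filter, Finset.mem_univ, true_and, Set.mem_ofPred_eq] at hy hy'
        have h1 := hT.cyc _ _ _ (hφ y hy)
        have h2 := hT.cyc _ _ _ (hφ y' hy')
        rw [← h] at h2
        exact hT.uniq _ _ _ _ h1 h2
  have h2 := Finset.card_filter_add_card_filter_not (s := (Finset.univ : Finset X))
    (p := fun y => ∃ z, T x y z)
  have h3 := Finset.card_filter_add_card_filter_not (s := (Finset.univ : Finset X))
    (p := fun y => ∃ z, T y x z)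
  unfold odeg ideg
  omega

/-- Add `w` new points: `c e = some b` means that the undefined product `e` gets the value `b`. -/
def ext {X : Type} (T : X → X → X → Prop) (w : ℕ) [NeZero w] (c : Lv T → Option (Fin w)) :
    (X ⊕ Fin w) → (X ⊕ Fin w) → (X ⊕ Fin w) → Prop
  | .inl x, .inl y, .inl z => T x y z
  | .inl x, .inl y, .inr b => ∃ e : Lv T, e.1 = (x, y) ∧ c e = some b
  | .inl y, .inr b, .inl x => ∃ e : Lv T, e.1 = (x, y) ∧ c e = some b
  | .inr b, .inl x, .inl y => ∃ e : Lv T, e.1 = (x, y) ∧ c e = some b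
  | .inr a, .inr b, .inr d => a + b + d = 0
  | .inl _, .inr _, .inr _ => False
  | .inr _, .inl _, .inr _ => False
  | .inr _, .inr _, .inl _ => False

theorem ext_pssq {X : Type} (T : X → X → X → Prop) (hT : PSSQ T) (w : ℕ) [NeZero w]
    (c : Lv T → Option (Fin w))
    (hs : ∀ e e' : Lv T, e.1.1 = e'.1.1 → c e = c e' → c e ≠ none → e = e')
    (ht : ∀ e e' : Lv T, e.1.2 = e'.1.2 → c e = c e' → c e ≠ none → e = e') :
    PSSQ (ext T w c) := by
  constructor
  · rintro (x | x) (y | y) (z | z) h
    · exact hT.cyc _ _ _ h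
    · exact h
    · exact h
    · exact h
    · exact h
    · exact h
    · exact h
    · simp only [ext] at h ⊢
      rw [← h, add_assoc x y z, add_comm x (y + z)]
  · rintro (x | x) (y | y) (z | z) (z' | z') h h'
    · rw [hT.uniq _ _ _ _ h h']
    · obtain ⟨e, he, _⟩ := h'
      have h2 := e.2
      rw [he] at h2
      exact absurd ⟨z, h⟩ h2
    · obtain ⟨e, he, _⟩ := h
      have h2 := e.2
      rw [he] at h2
      exact absurd ⟨z', h'⟩ h2
    · obtain ⟨e, he, hc⟩ := h
      obtain ⟨e', he', hc'⟩ := h'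
      have : e = e' := Subtype.ext (by rw [he, he'])
      subst this
      rw [hc] at hc'
      rw [Option.some.inj hc']
    · obtain ⟨e, he, hc⟩ := h
      obtain ⟨e', he', hc'⟩ := h'
      have : e = e' := ht e e' (by rw [he, he']) (by rw [hc, hc']) (by rw [hc]; simp)
      subst this
      rw [he] at he'
      simp only [Prod.mk.injEq] at he'
      rw [he'.1]
    · exact absurd h' (by simp [ext])
    · exact absurd h (by simp [ext])
    · exact absurd h (by simp [ext])
    · obtain ⟨e, he, hc⟩ := h
      obtain ⟨e', he', hc'⟩ := h'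
      have : e = e' := hs e e' (by rw [he, he']) (by rw [hc, hc']) (by rw [hc]; simp)
      subst this
      rw [he] at he'
      simp only [Prod.mk.injEq] at he'
      rw [he'.2]
    · exact absurd h' (by simp [ext])
    · exact absurd h (by simp [ext])
    · exact absurd h (by simp [ext])
    · exact absurd h (by simp [ext])
    · exact absurd h (by simp [ext])
    · exact absurd h' (by simp [ext])
    · simp only [ext] at h h'
      rw [← h'] at h
      rw [add_left_cancel h]

theorem ext_odeg_inl {X : Type} [Fintype X] [DecidableEq X] (T : X → X → X → Prop) (w : ℕ)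
    [NeZero w] (c : Lv T → Option (Fin w)) (x : X) :
    odeg (ext T w c) (.inl x) = (Finset.univ.filter (fun e : Lv T => e.1.1 = x ∧ c e = none)).card
      + (Finset.univ.filter (fun b : Fin w => ¬ ∃ e : Lv T, e.1.2 = x ∧ c e = some b)).card := by
  classical
  unfold odeg
  rw [cfs]
  congr 1
  · symm
    apply Finset.card_bij (fun e _ => e.1.2)
    · intro e he
      simp only [Finset.mem_filter, Finset.mem_univ, true_and] at he ⊢
      rintro ⟨z | z, hz⟩
      · apply e.2
        rw [he.1]
        exact ⟨z, hz⟩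
      · obtain ⟨e', he', hc'⟩ := hz
        have : e = e' := Subtype.ext (by rw [he', ← he.1])
        subst this
        rw [he.2] at hc'
        exact absurd hc' (by simp)
    · intro e he e' he' h
      simp only [Finset.mem_filter, Finset.mem_univ, true_and] at he he'
      apply Subtype.ext
      apply Prod.ext
      · rw [he.1, he'.1]
      · exact h
    · intro y hy
      simp only [Finset.mem_filter, Finset.mem_univ, true_and] at hy
      have h1 : ¬ ∃ z, T x y z := fun ⟨z, hz⟩ => hy ⟨.inl z, hz⟩
      refine ⟨⟨(x, y), h1⟩, ?_, rfl⟩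
      simp only [Finset.mem_filter, Finset.mem_univ, true_and]
      by_contra hc
      obtain ⟨b, hb⟩ := Option.ne_none_iff_exists'.1 hc
      exact hy ⟨.inr b, ⟨(x, y), h1⟩, rfl, hb⟩
  · congr 1
    ext b
    simp only [Finset.mem_filter, Finset.mem_univ, true_and]
    apply not_congr
    constructor
    · rintro ⟨z | z, hz⟩
      · obtain ⟨e, he, hc⟩ := hz
        exact ⟨e, by rw [he], hc⟩
      · exact absurd hz (by simp [ext])
    · rintro ⟨e, he, hc⟩
      exact ⟨.inl e.1.1, e, by rw [← he], hc⟩

theorem ext_odeg_inr {X : Type} [Fintype X] [DecidableEq X] (T : X → X → X → Prop) (w : ℕ)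
    [NeZero w] (c : Lv T → Option (Fin w)) (b : Fin w) :
    odeg (ext T w c) (.inr b) =
      (Finset.univ.filter (fun x : X => ¬ ∃ e : Lv T, e.1.1 = x ∧ c e = some b)).card := by
  classical
  unfold odeg
  rw [cfs]
  have h1 : (Finset.univ.filter (fun b' : Fin w => ¬ ∃ z, ext T w c (.inr b) (.inr b') z)).card
      = 0 := by
    rw [Finset.card_eq_zero, Finset.filter_eq_empty_iff]
    intro b' _
    rw [not_not]
    exact ⟨.inr (-(b + b')), by simp [ext]⟩
  rw [h1, add_zero]
  congr 1
  ext x
  simp only [Finset.mem_filter, Finset.mem_univ, true_and]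
  apply not_congr
  constructor
  · rintro ⟨z | z, hz⟩
    · obtain ⟨e, he, hc⟩ := hz
      exact ⟨e, by rw [he], hc⟩
    · exact absurd hz (by simp [ext])
  · rintro ⟨e, he, hc⟩
    exact ⟨.inl e.1.2, e, by rw [← he], hc⟩

theorem step {X : Type} [Fintype X] [DecidableEq X] (T : X → X → X → Prop) (hT : PSSQ T)
    (j w ψ : ℕ) [NeZero w] (hj : 1 ≤ j) (f : X → ℕ)
    (hf : ∀ x, odeg T x + f x = (j + 2) * w)
    (hS : ∑ x, f x + 3 * ψ = (j + 2) * ((j + 1) * w * w))
    (hbig : ∀ x, 2 * (j + 2) ≤ f x) :
    ∃ T' : (X ⊕ Fin w) → (X ⊕ Fin w) → (X ⊕ Fin w) → Prop, PSSQ T' ∧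
      (∀ x y z, T x y z → T' (.inl x) (.inl y) (.inl z)) ∧
      ∃ f' : (X ⊕ Fin w) → ℕ, (∀ p, odeg T' p + f' p = (j + 1) * w) ∧
        (∑ p, f' p + 3 * (ψ - 3 * ψ / (j + 2)) = (j + 1) * (j * w * w)) ∧
        (∀ x, f x ≤ f' (.inl x) + 2 * (f x - (j + 1) * (f x / (j + 2)))) ∧
        (∀ b, (3 * ψ / (j + 2)) / w ≤ f' (.inr b)) := by
  classical
  have hw : 0 < w := Nat.pos_of_ne_zero (NeZero.ne w)
  obtain ⟨c, u', v', g', h1, h2, h3, h4, h5, h6, h7, h8, h9, h10⟩ :=
    split_S (E := Lv T) (fun e => e.1.1) (fun e => e.1.2) (j + 2) (by omega) w ((j + 1) * w * w)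
      (3 * ψ) f f
      (by intro x; rw [odeg_eq_card]; exact hf x)
      (by intro x; rw [ideg_eq_card, ← odeg_eq_ideg T hT]; exact hf x) hS hS
  -- choose the colour
  obtain ⟨i, hi⟩ : ∃ i, g' i = 3 * ψ / (j + 2) := by
    by_contra hcon
    push Not at hcon
    have hgt : ∀ i, 3 * ψ / (j + 2) + 1 ≤ g' i := by
      intro i
      have a := h10 i
      have b := hcon i
      omega
    have hsum : ∑ _i : Fin (j + 2), (3 * ψ / (j + 2) + 1) ≤ ∑ i, g' i :=
      Finset.sum_le_sum (fun i _ => hgt i)
    rw [h7] at hsum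
    simp only [Finset.sum_const, Finset.card_univ, Fintype.card_fin, smul_eq_mul] at hsum
    have := Nat.lt_mul_div_succ (3 * ψ) (show 0 < j + 2 by omega)
    omega
  obtain ⟨φ, hφ⟩ : ∃ φ, φ = 3 * ψ / (j + 2) := ⟨_, rfl⟩
  rw [← hφ] at hi
  have hφψ : φ ≤ ψ := by
    rw [hφ]
    apply Nat.div_le_of_le_mul
    nlinarith
  -- second splitting
  have hsub1 : ∀ x, (Finset.univ.filter (fun e : {e : Lv T // c e = i} => e.1.1.1 = x)).card =
      (Finset.univ.filter (fun e : Lv T => e.1.1 = x ∧ c e = i)).card := by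
    intro x
    apply Finset.card_bij (fun e _ => e.1)
    · intro e he
      simp only [Finset.mem_filter, Finset.mem_univ, true_and] at he ⊢
      exact ⟨he, e.2⟩
    · intro e _ e' _ h
      exact Subtype.ext h
    · intro e he
      simp only [Finset.mem_filter, Finset.mem_univ, true_and] at he
      exact ⟨⟨e, he.2⟩, by simp [he.1], rfl⟩
  have hsub2 : ∀ x, (Finset.univ.filter (fun e : {e : Lv T // c e = i} => e.1.1.2 = x)).card =
      (Finset.univ.filter (fun e : Lv T => e.1.2 = x ∧ c e = i)).card := by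
    intro x
    apply Finset.card_bij (fun e _ => e.1)
    · intro e he
      simp only [Finset.mem_filter, Finset.mem_univ, true_and] at he ⊢
      exact ⟨he, e.2⟩
    · intro e _ e' _ h
      exact Subtype.ext h
    · intro e he
      simp only [Finset.mem_filter, Finset.mem_univ, true_and] at he
      exact ⟨⟨e, he.2⟩, by simp [he.1], rfl⟩
  obtain ⟨c2, u2, v2, g2, k1, k2, k3, k4, k5, k6, k7, k8, k9, k10⟩ :=
    split_S (E := {e : Lv T // c e = i}) (fun e => e.1.1.1) (fun e => e.1.1.2) w hw 1
      ((j + 1) * w) φ (u' i) (v' i)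
      (by intro x; rw [hsub1, h1 i x, mul_one])
      (by intro x; rw [hsub2, h2 i x, mul_one])
      (by rw [← hi, h3 i]; ring) (by rw [← hi, h4 i]; ring)
  let cc : Lv T → Option (Fin w) := fun e => if h : c e = i then some (c2 ⟨e, h⟩) else none
  have hcc : ∀ e b, cc e = some b ↔ ∃ h : c e = i, c2 ⟨e, h⟩ = b := by
    intro e b
    simp only [cc]
    split_ifs with h
    · simp [h]
    · simp [h]
  have hccn : ∀ e, cc e = none ↔ c e ≠ i := by
    intro e
    simp only [cc]
    split_ifs with h
    · simp [h]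
    · simp [h]
  have huniq1 : ∀ x b, ∀ e e' : {e : Lv T // c e = i}, e.1.1.1 = x → e'.1.1.1 = x →
      c2 e = b → c2 e' = b → e = e' := by
    intro x b e e' he he' hb hb'
    have hle : (Finset.univ.filter (fun e : {e : Lv T // c e = i} =>
      e.1.1.1 = x ∧ c2 e = b)).card ≤ 1 := by have := k1 b x; omega
    exact Finset.card_le_one.1 hle e (by simp [he, hb]) e' (by simp [he', hb'])
  have huniq2 : ∀ x b, ∀ e e' : {e : Lv T // c e = i}, e.1.1.2 = x → e'.1.1.2 = x →
      c2 e = b → c2 e' = b → e = e' := by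
    intro x b e e' he he' hb hb'
    have hle : (Finset.univ.filter (fun e : {e : Lv T // c e = i} =>
      e.1.1.2 = x ∧ c2 e = b)).card ≤ 1 := by have := k2 b x; omega
    exact Finset.card_le_one.1 hle e (by simp [he, hb]) e' (by simp [he', hb'])
  refine ⟨ext T w cc, ext_pssq T hT w cc ?_ ?_, fun x y z h => h, ?_⟩
  · intro e e' h hc hne
    obtain ⟨b, hb⟩ := Option.ne_none_iff_exists'.1 hne
    have hb' := hb
    rw [hc] at hb'
    obtain ⟨p, hp⟩ := (hcc e b).1 hb
    obtain ⟨p', hp'⟩ := (hcc e' b).1 hb'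
    exact congrArg Subtype.val (huniq1 e.1.1 b ⟨e, p⟩ ⟨e', p'⟩ rfl h.symm hp hp')
  · intro e e' h hc hne
    obtain ⟨b, hb⟩ := Option.ne_none_iff_exists'.1 hne
    have hb' := hb
    rw [hc] at hb'
    obtain ⟨p, hp⟩ := (hcc e b).1 hb
    obtain ⟨p', hp'⟩ := (hcc e' b).1 hb'
    exact congrArg Subtype.val (huniq2 e.1.2 b ⟨e, p⟩ ⟨e', p'⟩ rfl h.symm hp hp')
  -- upper bounds for `u'` and `v'`
  have hup : ∀ (a : Fin (j + 2) → X → ℕ), (∀ x, ∑ i, a i x = f x) →
      (∀ i x, f x / (j + 2) ≤ a i x) → ∀ x, a i x ≤ f x - (j + 1) * (f x / (j + 2)) := by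
    intro a ha hb x
    have e1 : ∑ i', a i' x = a i x + ∑ i' ∈ Finset.univ.erase i, a i' x :=
      (Finset.add_sum_erase Finset.univ (fun i' => a i' x) (Finset.mem_univ i)).symm
    have e2 : ∑ _i' ∈ Finset.univ.erase i, (f x / (j + 2)) ≤ ∑ i' ∈ Finset.univ.erase i, a i' x :=
      Finset.sum_le_sum (fun i' _ => hb i' x)
    rw [Finset.sum_const, Finset.card_erase_of_mem (Finset.mem_univ _), Finset.card_univ,
      Fintype.card_fin, smul_eq_mul] at e2
    rw [ha] at e1
    have : j + 2 - 1 = j + 1 := by omega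
    rw [this] at e2
    omega
  have hu := hup u' h5 h8
  have hv := hup v' h6 h9
  have huv : ∀ x, u' i x + v' i x ≤ f x := by
    intro x
    have a := hu x
    have b := hv x
    have c1 := Nat.div_add_mod (f x) (j + 2)
    have c2 := Nat.mod_lt (f x) (show 0 < j + 2 by omega)
    have c3 : 2 ≤ f x / (j + 2) := by
      rw [Nat.le_div_iff_mul_le (by omega)]
      exact hbig x
    obtain ⟨A, hA⟩ : ∃ A, A = f x / (j + 2) := ⟨_, rfl⟩
    rw [← hA] at a b c1 c3
    have d1 : f x - (j + 1) * A = A + f x % (j + 2) := by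
      have : (j + 2) * A = (j + 1) * A + A := by ring
      omega
    rw [d1] at a b
    have d2 : j + 1 ≤ j * A := by nlinarith
    have d3 : (j + 2) * A = j * A + 2 * A := by ring
    omega
  have hone : ∀ (a b : ℕ), a + b = 1 → ((¬ 0 < a) ↔ b = 1) := by intro a b h; omega
  -- counting
  have hU : ∀ x, (Finset.univ.filter
      (fun b : Fin w => ¬ ∃ e : Lv T, e.1.2 = x ∧ cc e = some b)).card = u' i x := by
    intro x
    rw [← k5 x, Finset.card_filter]
    apply Finset.sum_congr rfl
    intro b _
    have hk := k2 b x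
    by_cases hex : ∃ e : Lv T, e.1.2 = x ∧ cc e = some b
    · rw [if_neg (not_not.2 hex)]
      obtain ⟨e, he, hb⟩ := hex
      obtain ⟨p, hp⟩ := (hcc e b).1 hb
      have : 0 < (Finset.univ.filter (fun e : {e : Lv T // c e = i} =>
          e.1.1.2 = x ∧ c2 e = b)).card := Finset.card_pos.2 ⟨⟨e, p⟩, by simp [he, hp]⟩
      omega
    · rw [if_pos hex]
      have : (Finset.univ.filter (fun e : {e : Lv T // c e = i} =>
          e.1.1.2 = x ∧ c2 e = b)).card = 0 := by
        rw [Finset.card_eq_zero, Finset.filter_eq_empty_iff]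
        rintro ⟨e, p⟩ _ ⟨h, h'⟩
        exact hex ⟨e, h, (hcc e b).2 ⟨p, h'⟩⟩
      omega
  have hV : ∀ b, (Finset.univ.filter
      (fun x : X => ¬ ∃ e : Lv T, e.1.1 = x ∧ cc e = some b)).card = ∑ x, v2 b x := by
    intro b
    rw [Finset.card_filter]
    apply Finset.sum_congr rfl
    intro x _
    have hk := k1 b x
    by_cases hex : ∃ e : Lv T, e.1.1 = x ∧ cc e = some b
    · rw [if_neg (not_not.2 hex)]
      obtain ⟨e, he, hb⟩ := hex
      obtain ⟨p, hp⟩ := (hcc e b).1 hb
      have : 0 < (Finset.univ.filter (fun e : {e : Lv T // c e = i} =>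
          e.1.1.1 = x ∧ c2 e = b)).card := Finset.card_pos.2 ⟨⟨e, p⟩, by simp [he, hp]⟩
      omega
    · rw [if_pos hex]
      have : (Finset.univ.filter (fun e : {e : Lv T // c e = i} =>
          e.1.1.1 = x ∧ c2 e = b)).card = 0 := by
        rw [Finset.card_eq_zero, Finset.filter_eq_empty_iff]
        rintro ⟨e, p⟩ _ ⟨h, h'⟩
        exact hex ⟨e, h, (hcc e b).2 ⟨p, h'⟩⟩
      omega
  have hN : ∀ x, (Finset.univ.filter (fun e : Lv T => e.1.1 = x ∧ cc e = none)).card + w =
      odeg T x + v' i x := by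
    intro x
    have e1 := odeg_eq_card T x
    have e2 := h1 i x
    have e3 := Finset.card_filter_add_card_filter_not
      (s := (Finset.univ.filter (fun e : Lv T => e.1.1 = x))) (p := fun e => c e = i)
    rw [Finset.filter_filter, Finset.filter_filter] at e3
    have e4 : (Finset.univ.filter (fun e : Lv T => e.1.1 = x ∧ cc e = none)).card =
        (Finset.univ.filter (fun e : Lv T => e.1.1 = x ∧ ¬ c e = i)).card := by
      congr 1
      ext e
      simp only [Finset.mem_filter, Finset.mem_univ, true_and, hccn]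
    rw [e4]
    omega
  refine ⟨Sum.elim (fun x => f x - (u' i x + v' i x)) g2, ?_, ?_, ?_, ?_⟩
  · rintro (x | b)
    · rw [ext_odeg_inl, hU x]
      simp only [Sum.elim_inl]
      have a := hN x
      have b := hf x
      have d := huv x
      have e : (j + 2) * w = (j + 1) * w + w := by ring
      omega
    · rw [ext_odeg_inr, hV b]
      simp only [Sum.elim_inr]
      exact k4 b
  · rw [Fintype.sum_sum_type]
    simp only [Sum.elim_inl, Sum.elim_inr]
    rw [k7, ← hφ]
    have e1 : ∑ x, (f x - (u' i x + v' i x)) + (∑ x, u' i x + ∑ x, v' i x) = ∑ x, f x := by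
      rw [← Finset.sum_add_distrib, ← Finset.sum_add_distrib]
      apply Finset.sum_congr rfl
      intro x _
      have := huv x
      omega
    have e2 := h3 i
    have e3 := h4 i
    rw [hi] at e2 e3
    have e4 : (j + 2) * ((j + 1) * w * w) = (j + 1) * (j * w * w) + 2 * ((j + 1) * w * w) := by
      ring
    omega
  · intro x
    simp only [Sum.elim_inl]
    have a := hu x
    have b := hv x
    have d := huv x
    omega
  · intro b
    simp only [Sum.elim_inr]
    rw [← hφ]
    exact k10 b

end Pool.Agent.Helper74.SSQ
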