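import Mathlib
import Pool.Agent.Helper74.SSQ.Step
import Pool.Agent.Helper74.SSQ.Detach

set_option autoImplicit false
set_option linter.unusedSectionVars false

namespace Pool.Agent.Helper74.SSQ

open Finset

/-- `T` extends to a complete semisymmetric quasigroup of order `t`. -/
def Embeds {X : Type} (T : X → X → X → Prop) (t : ℕ) : Prop :=
  ∃ (W : Type) (_ : Fintype W) (T' : W → W → W → Prop),
    (∀ x y z, T' x y z → T' y z x) ∧ (∀ x y, ∃! z, T' x y z) ∧ Fintype.card W = t ∧
    ∃ ι : X → W, Function.Injective ι ∧ ∀ x y z, T x y z → T' (ι x) (ι y) (ι z)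

theorem exists_between {X : Type} [Fintype X] [DecidableEq X] (lo hi : X → ℕ)
    (h : ∀ x, lo x ≤ hi x) (S : ℕ) (h1 : ∑ x, lo x ≤ S) (h2 : S ≤ ∑ x, hi x) :
    ∃ y : X → ℕ, (∀ x, lo x ≤ y x ∧ y x ≤ hi x) ∧ ∑ x, y x = S := by
  induction S, h1 using Nat.le_induction with
  | base => exact ⟨lo, fun x => ⟨le_rfl, h x⟩, rfl⟩
  | succ S hS ih =>
    obtain ⟨y, hy, hys⟩ := ih (by omega)
    obtain ⟨x0, hx0⟩ : ∃ x, y x < hi x := by
      by_contra hcon
      push Not at hcon
      have := Finset.sum_le_sum (fun x (_ : x ∈ Finset.univ) => hcon x)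
      omega
    refine ⟨Function.update y x0 (y x0 + 1), ?_, ?_⟩
    · intro x
      by_cases hx : x = x0
      · subst hx
        rw [Function.update_self]
        have := hy x
        omega
      · rw [Function.update_of_ne hx]
        exact hy x
    · rw [← hys]
      rw [← Finset.add_sum_erase Finset.univ _ (Finset.mem_univ x0),
        ← Finset.add_sum_erase Finset.univ y (Finset.mem_univ x0), Function.update_self]
      have : ∑ x ∈ Finset.univ.erase x0, Function.update y x0 (y x0 + 1) x =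
          ∑ x ∈ Finset.univ.erase x0, y x := by
        apply Finset.sum_congr rfl
        intro x hx
        rw [Function.update_of_ne (Finset.ne_of_mem_erase hx)]
      rw [this]
      ring

/-- distribution of the `(x, ∞, ∞)` triples -/
def Nf (ρ γ : Fin 3 → ℕ) (y : ℕ) : Fin 3 → Fin 3 → ℕ :=
  ![![0, y, ρ 0 - y], ![ρ 0 + ρ 1 - γ 2 - y, 0, γ 2 + y - ρ 0], ![ρ 2 + y - γ 1, γ 1 - y, 0]]

/-- triples of blocks -/
def Bf (w F G : ℕ) (i j l : Fin 3) : ℕ :=
  if j = i ∧ l = i then w * w else if j = i + 1 ∧ l = i + 2 then F else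
    if j = i + 2 ∧ l = i + 1 then G else 0

theorem Bf_cyc (w F G : ℕ) (i j l : Fin 3) : Bf w F G i j l = Bf w F G j l i := by
  fin_cases i <;> fin_cases j <;> fin_cases l <;> simp [Bf]

open Classical in
/-- indicator -/
noncomputable def ind (p : Prop) : ℕ := if p then 1 else 0

theorem ind_pos {p : Prop} (h : p) : ind p = 1 := by unfold ind; exact if_pos h

theorem ind_neg {p : Prop} (h : ¬ p) : ind p = 0 := by unfold ind; exact if_neg h

theorem sum_ind {X : Type} [Fintype X] (p : X → Prop) [DecidablePred p] :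
    ∑ z, ind (p z) = (Finset.univ.filter p).card := by
  rw [Finset.card_filter]
  apply Finset.sum_congr rfl
  intro z _
  by_cases h : p z
  · rw [ind_pos h, if_pos h]
  · rw [ind_neg h, if_neg h]

/-- the outline -/
noncomputable def outl {X : Type} (T : X → X → X → Prop) (c : Lv T → Fin 3)
    (ρ γ : Fin 3 → X → ℕ) (y : X → ℕ) (w F G : ℕ) :
    (X ⊕ Fin 3) → (X ⊕ Fin 3) → (X ⊕ Fin 3) → ℕ
  | .inl a, .inl b, .inl d => ind (T a b d)
  | .inl a, .inl b, .inr i => ind (∃ e : Lv T, e.1 = (a, b) ∧ c e = i)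
  | .inl a, .inr i, .inl d => ind (∃ e : Lv T, e.1 = (d, a) ∧ c e = i)
  | .inr i, .inl b, .inl d => ind (∃ e : Lv T, e.1 = (b, d) ∧ c e = i)
  | .inl a, .inr i, .inr j => Nf (fun i => ρ i a) (fun i => γ i a) (y a) i j
  | .inr i, .inr j, .inl a => Nf (fun i => ρ i a) (fun i => γ i a) (y a) i j
  | .inr i, .inl a, .inr j => Nf (fun i => ρ i a) (fun i => γ i a) (y a) j i
  | .inr i, .inr j, .inr l => Bf w F G i j l

theorem outl_outline {X : Type} [Fintype X] [DecidableEq X] (T : X → X → X → Prop) (hT : PSSQ T)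
    (c : Lv T → Fin 3) (ρ γ : Fin 3 → X → ℕ) (y : X → ℕ) (w F G D : ℕ)
    (h1 : ∀ i x, (Finset.univ.filter (fun e : Lv T => e.1.1 = x ∧ c e = i)).card + γ i x = w)
    (h2 : ∀ i x, (Finset.univ.filter (fun e : Lv T => e.1.2 = x ∧ c e = i)).card + ρ i x = w)
    (hρ : ∀ i, ∑ x, ρ i x = D) (hγ : ∀ i, ∑ x, γ i x = D)
    (hsum : ∀ x, ρ 0 x + ρ 1 x + ρ 2 x = γ 0 x + γ 1 x + γ 2 x)
    (hy1 : ∀ x, y x ≤ ρ 0 x) (hy2 : ∀ x, ρ 0 x ≤ γ 2 x + y x) (hy3 : ∀ x, y x ≤ γ 1 x)
    (hy4 : ∀ x, γ 1 x ≤ ρ 2 x + y x) (hy5 : ∀ x, γ 2 x + y x ≤ ρ 0 x + ρ 1 x)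
    (hF : ∑ x, y x + F = w * w) (hG : D + G = ∑ x, y x + w * w) :
    Outline (Sum.elim (fun _ => 1) (fun _ => w) : X ⊕ Fin 3 → ℕ) (outl T c ρ γ y w F G) := by
  classical
  constructor
  · rintro (u | u) (v | v) (z | z)
    · simp only [outl]
      congr 1
      apply propext
      exact ⟨fun h => hT.cyc _ _ _ h, fun h => hT.cyc _ _ _ (hT.cyc _ _ _ h)⟩
    · rfl
    · rfl
    · rfl
    · rfl
    · rfl
    · rfl
    · exact Bf_cyc _ _ _ _ _ _
  · have hcard1 : ∀ (x : X) (i : Fin 3),
        ∑ z, ind (∃ e : Lv T, e.1 = (x, z) ∧ c e = i) =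
        (Finset.univ.filter (fun e : Lv T => e.1.1 = x ∧ c e = i)).card := by
      intro x i
      rw [sum_ind]
      symm
      apply Finset.card_bij (fun e _ => e.1.2)
      · intro e he
        simp only [Finset.mem_filter, Finset.mem_univ, true_and] at he ⊢
        exact ⟨e, by rw [← he.1], he.2⟩
      · intro e he e' he' h
        simp only [Finset.mem_filter, Finset.mem_univ, true_and] at he he'
        exact Subtype.ext (Prod.ext (by rw [he.1, he'.1]) h)
      · intro z hz
        simp only [Finset.mem_filter, Finset.mem_univ, true_and] at hz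
        obtain ⟨e, he, hc⟩ := hz
        exact ⟨e, by simp [he, hc], by rw [he]⟩
    have hcard2 : ∀ (x : X) (i : Fin 3),
        ∑ z, ind (∃ e : Lv T, e.1 = (z, x) ∧ c e = i) =
        (Finset.univ.filter (fun e : Lv T => e.1.2 = x ∧ c e = i)).card := by
      intro x i
      rw [sum_ind]
      symm
      apply Finset.card_bij (fun e _ => e.1.1)
      · intro e he
        simp only [Finset.mem_filter, Finset.mem_univ, true_and] at he ⊢
        exact ⟨e, by rw [← he.1], he.2⟩
      · intro e he e' he' h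
        simp only [Finset.mem_filter, Finset.mem_univ, true_and] at he he'
        exact Subtype.ext (Prod.ext h (by rw [he.1, he'.1]))
      · intro z hz
        simp only [Finset.mem_filter, Finset.mem_univ, true_and] at hz
        obtain ⟨e, he, hc⟩ := hz
        exact ⟨e, by simp [he, hc], by rw [he]⟩
    rintro (a | i) (b | j)
    · rw [Fintype.sum_sum_type]
      simp only [outl, Sum.elim_inl]
      by_cases h : ∃ z, T a b z
      · obtain ⟨z, hz⟩ := h
        have e1 : ∑ d, ind (T a b d) = 1 := by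
          rw [Finset.sum_eq_single z]
          · exact ind_pos hz
          · intro d _ hd
            apply ind_neg
            intro h'
            exact hd (hT.uniq _ _ _ _ h' hz)
          · intro h; exact absurd (Finset.mem_univ _) h
        have e2 : ∑ i, ind (∃ e : Lv T, e.1 = (a, b) ∧ c e = i) = 0 := by
          apply Finset.sum_eq_zero
          intro i _
          apply ind_neg
          rintro ⟨e, he, _⟩
          have := e.2
          rw [he] at this
          exact this ⟨z, hz⟩
        rw [e1, e2]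
      · have e1 : ∑ d, ind (T a b d) = 0 := by
          apply Finset.sum_eq_zero
          intro d _
          apply ind_neg
          intro h'
          exact h ⟨d, h'⟩
        have e2 : ∑ i, ind (∃ e : Lv T, e.1 = (a, b) ∧ c e = i) = 1 := by
          rw [Finset.sum_eq_single (c ⟨(a, b), h⟩)]
          · exact ind_pos ⟨⟨(a, b), h⟩, rfl, rfl⟩
          · intro d _ hd
            apply ind_neg
            rintro ⟨e, he, hc⟩
            apply hd
            have : e = ⟨(a, b), h⟩ := Subtype.ext he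
            rw [← hc, this]
          · intro h; exact absurd (Finset.mem_univ _) h
        rw [e1, e2]
    · rw [Fintype.sum_sum_type]
      simp only [outl, Sum.elim_inl, Sum.elim_inr]
      rw [hcard2, one_mul, ← h2 j a]
      congr 1
      rw [Fin.sum_univ_three]
      have a1 := hy1 a
      have a2 := hy2 a
      have a3 := hy3 a
      have a4 := hy4 a
      have a5 := hy5 a
      have a6 := hsum a
      fin_cases j <;> simp [Nf] <;> omega
    · rw [Fintype.sum_sum_type]
      simp only [outl, Sum.elim_inl, Sum.elim_inr]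
      rw [hcard1, mul_one, ← h1 i b]
      congr 1
      rw [Fin.sum_univ_three]
      have a1 := hy1 b
      have a2 := hy2 b
      have a3 := hy3 b
      have a4 := hy4 b
      have a5 := hy5 b
      have a6 := hsum b
      fin_cases i <;> simp [Nf] <;> omega
    · rw [Fintype.sum_sum_type]
      simp only [outl, Sum.elim_inr]
      -- column totals
      have s1 : ∑ x, (ρ 0 x - y x) + ∑ x, y x = D := by
        rw [← hρ 0, ← Finset.sum_add_distrib]
        exact Finset.sum_congr rfl (fun x _ => by have := hy1 x; omega)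
      have s2 : ∑ x, (γ 1 x - y x) + ∑ x, y x = D := by
        rw [← hγ 1, ← Finset.sum_add_distrib]
        exact Finset.sum_congr rfl (fun x _ => by have := hy3 x; omega)
      have s3 : ∑ x, (γ 2 x + y x - ρ 0 x) + D = D + ∑ x, y x := by
        have : ∑ x, (γ 2 x + y x - ρ 0 x) + ∑ x, ρ 0 x = ∑ x, γ 2 x + ∑ x, y x := by
          rw [← Finset.sum_add_distrib, ← Finset.sum_add_distrib]
          exact Finset.sum_congr rfl (fun x _ => by have := hy2 x; omega)
        rwa [hρ, hγ] at this
      have s4 : ∑ x, (ρ 2 x + y x - γ 1 x) + D = D + ∑ x, y x := by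
        have : ∑ x, (ρ 2 x + y x - γ 1 x) + ∑ x, γ 1 x = ∑ x, ρ 2 x + ∑ x, y x := by
          rw [← Finset.sum_add_distrib, ← Finset.sum_add_distrib]
          exact Finset.sum_congr rfl (fun x _ => by have := hy4 x; omega)
        rwa [hρ, hγ] at this
      have s5 : ∑ x, (ρ 0 x + ρ 1 x - γ 2 x - y x) + (D + ∑ x, y x) = D + D := by
        have : ∑ x, (ρ 0 x + ρ 1 x - γ 2 x - y x) + (∑ x, γ 2 x + ∑ x, y x) =
            ∑ x, ρ 0 x + ∑ x, ρ 1 x := by
          rw [← Finset.sum_add_distrib, ← Finset.sum_add_distrib, ← Finset.sum_add_distrib]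
          exact Finset.sum_congr rfl (fun x _ => by have := hy5 x; omega)
        rwa [hρ, hρ, hγ] at this
      rw [Fin.sum_univ_three]
      fin_cases i <;> fin_cases j <;> simp [Nf, Bf] <;> omega

theorem final_three {X : Type} [Fintype X] [DecidableEq X] (T : X → X → X → Prop) (hT : PSSQ T)
    (w ψ : ℕ) [NeZero w] (f : X → ℕ)
    (hf : ∀ x, odeg T x + f x = 3 * w)
    (hS : ∑ x, f x + 3 * ψ = 3 * (2 * w * w))
    (hbig : ∀ x, 12 ≤ f x) (hn : 3 * Fintype.card X ≤ w * w) :
    Embeds T (Fintype.card X + 3 * w) := by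
  classical
  have hw : 0 < w := Nat.pos_of_ne_zero (NeZero.ne w)
  obtain ⟨D, hD⟩ : ∃ D, D + ψ = 2 * w * w := ⟨2 * w * w - ψ, by omega⟩
  have hSD : ∑ x, f x + 0 = 3 * D := by omega
  obtain ⟨c, ρ, γ, g', h1, h2, h3, h4, h5, h6, h7, h8, h9, h10⟩ :=
    split_S (E := Lv T) (fun e => e.1.1) (fun e => e.1.2) 3 (by omega) w D 0 f f
      (by intro x; rw [odeg_eq_card]; exact hf x)
      (by intro x; rw [ideg_eq_card, ← odeg_eq_ideg T hT]; exact hf x) hSD hSD
  have hg0 : ∀ i, g' i = 0 := by
    intro i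
    exact (Finset.sum_eq_zero_iff.1 h7) i (Finset.mem_univ _)
  have hρ : ∀ i, ∑ x, ρ i x = D := by intro i; rw [← h3 i, hg0 i, add_zero]
  have hγ : ∀ i, ∑ x, γ i x = D := by intro i; rw [← h4 i, hg0 i, add_zero]
  have k5 : ∀ x, ρ 0 x + ρ 1 x + ρ 2 x = f x := by
    intro x; rw [← h5 x, Fin.sum_univ_three]
  have k6 : ∀ x, γ 0 x + γ 1 x + γ 2 x = f x := by
    intro x; rw [← h6 x, Fin.sum_univ_three]
  -- bounds
  have hb : ∀ x, max (ρ 0 x - γ 2 x) (γ 1 x - ρ 2 x) ≤ 2 ∧
      f x / 3 ≤ min (ρ 0 x) (min (γ 1 x) (ρ 0 x + ρ 1 x - γ 2 x)) + 2 := by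
    intro x
    have a0 := h8 0 x
    have a1 := h8 1 x
    have a2 := h8 2 x
    have b0 := h9 0 x
    have b1 := h9 1 x
    have b2 := h9 2 x
    have e1 := k5 x
    have e2 := k6 x
    omega
  have hlohi : ∀ x, max (ρ 0 x - γ 2 x) (γ 1 x - ρ 2 x) ≤
      min (ρ 0 x) (min (γ 1 x) (ρ 0 x + ρ 1 x - γ 2 x)) := by
    intro x
    have := hb x
    have := hbig x
    omega
  obtain ⟨lo, hlo⟩ : ∃ lo : X → ℕ, lo = fun x => max (ρ 0 x - γ 2 x) (γ 1 x - ρ 2 x) := ⟨_, rfl⟩
  obtain ⟨hi, hhi⟩ : ∃ hi : X → ℕ, hi = fun x =>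
    min (ρ 0 x) (min (γ 1 x) (ρ 0 x + ρ 1 x - γ 2 x)) := ⟨_, rfl⟩
  have hlosum : ∑ x, lo x ≤ w * w := by
    have : ∑ x, lo x ≤ ∑ _x : X, 2 := Finset.sum_le_sum (fun x _ => by
      rw [hlo]; exact (hb x).1)
    simp only [Finset.sum_const, Finset.card_univ, smul_eq_mul] at this
    omega
  have hhisum : D ≤ ∑ x, hi x + w * w := by
    have e1 : ∑ x, f x ≤ ∑ x, (3 * hi x + 8) := Finset.sum_le_sum (fun x _ => by
      rw [hhi]
      have := (hb x).2
      simp only
      omega)
    rw [Finset.sum_add_distrib, ← Finset.mul_sum] at e1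
    simp only [Finset.sum_const, Finset.card_univ, smul_eq_mul] at e1
    omega
  have hlh : ∑ x, lo x ≤ ∑ x, hi x := Finset.sum_le_sum (fun x _ => by
    rw [hlo, hhi]; exact hlohi x)
  obtain ⟨y, hy, hys⟩ := exists_between lo hi (by intro x; rw [hlo, hhi]; exact hlohi x)
    (max (∑ x, lo x) (w * w - ψ)) (le_max_left _ _) (by
      apply max_le hlh
      have e1 : 2 * w * w = 2 * (w * w) := by ring
      omega)
  have hyle : ∑ x, y x ≤ w * w := by
    rw [hys]
    apply max_le hlosum
    omega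
  have hyge : w * w ≤ ∑ x, y x + ψ := by
    rw [hys]
    have := le_max_right (∑ x, lo x) (w * w - ψ)
    omega
  obtain ⟨F, hF⟩ : ∃ F, ∑ x, y x + F = w * w := ⟨w * w - ∑ x, y x, by omega⟩
  obtain ⟨G, hG⟩ : ∃ G, F + G = ψ := ⟨ψ - F, by omega⟩
  have hO := outl_outline T hT c ρ γ y w F G D h1 h2 hρ hγ
    (by intro x; rw [k5, k6])
    (by intro x; have := (hy x).2; rw [hhi] at this; simp only at this; omega)
    (by intro x; have := (hy x).1; rw [hlo] at this; simp only at this; omega)
    (by intro x; have := (hy x).2; rw [hhi] at this; simp only at this; omega)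
    (by intro x; have := (hy x).1; rw [hlo] at this; simp only at this; omega)
    (by
      intro x
      have a := (hy x).2
      rw [hhi] at a
      simp only at a
      have b := hb x
      have c := hbig x
      have d := h8 0 x
      have e := h8 1 x
      have e1 := k5 x
      have e2 := k6 x
      have e3 := h9 0 x
      have e4 := h9 1 x
      have e5 := h8 2 x
      omega)
    hF (by
      have e1 : 2 * w * w = 2 * (w * w) := by ring
      omega)
  obtain ⟨W, hW, T', hT1, hT2, hT3, ι, hι1, hι2⟩ := detach _ (X ⊕ Fin 3) _ _ hO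
    (by
      rintro (x | i) hv z hz
      · exact absurd rfl hv
      · rcases z with x | l
        · simp only [outl, Nf]
          fin_cases i <;> simp
        · simp only [outl, Bf]
          have hne : l ≠ i := fun h => hz (by rw [h])
          fin_cases i <;> fin_cases l <;> simp at hne ⊢)
    (by
      rintro (x | i)
      · simp
      · exact hw) le_rfl
  refine ⟨W, hW, T', hT1, hT2, ?_, fun x => ι (.inl x), ?_, ?_⟩
  · rw [hT3, Fintype.sum_sum_type]
    simp
  · intro a b h
    have := hι1 _ _ rfl rfl h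
    exact Sum.inl.inj this
  · intro a b d h
    apply hι2 _ _ _ rfl rfl rfl
    simp only [outl]
    rw [ind_pos h]
    exact one_ne_zero

end Pool.Agent.Helper74.SSQ
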