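import Mathlib
import Pool.Agent.Helper74.SSQ.Final

set_option autoImplicit false
set_option linter.unusedSectionVars false

namespace Pool.Agent.Helper74.SSQ

open Finset

theorem Embeds.of_ext {X Y : Type} (T : X → X → X → Prop) (T' : Y → Y → Y → Prop) (i : X → Y)
    (hi : Function.Injective i) (h : ∀ x y z, T x y z → T' (i x) (i y) (i z)) {t : ℕ}
    (hE : Embeds T' t) : Embeds T t := by
  obtain ⟨W, hW, T'', h1, h2, h3, ι, h4, h5⟩ := hE
  exact ⟨W, hW, T'', h1, h2, h3, fun x => ι (i x), h4.comp hi, fun x y z hx => h5 _ _ _ (h _ _ _ hx)⟩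

theorem rec_main (j : ℕ) (hj : 1 ≤ j) : ∀ (X : Type) [Fintype X] [DecidableEq X]
    (T : X → X → X → Prop), PSSQ T → ∀ (w ψ : ℕ) [NeZero w] (f : X → ℕ),
    (∀ x, odeg T x + f x = (j + 2) * w) →
    (∑ x, f x + 3 * ψ = (j + 2) * ((j + 1) * w * w)) →
    (∀ x, (j + 2) * (j + 1) ^ 2 ≤ f x) →
    ((j + 2) * (j + 1) * j ^ 2 * w ≤ 3 * ψ) →
    (3 * (Fintype.card X + j * w) ≤ w * w) →
    Embeds T (Fintype.card X + (j + 2) * w) := by
  induction j, hj using Nat.le_induction with
  | base =>
    intro X _ _ T hT w ψ _ f hf hS hbig _ hn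
    apply final_three T hT w ψ f hf
    · rw [hS]
    · intro x; have := hbig x; norm_num at this; exact this
    · omega
  | succ j hj ih =>
    intro X _ _ T hT w ψ _ f hf hS hbig hψ hn
    have hw : 0 < w := Nat.pos_of_ne_zero (NeZero.ne w)
    obtain ⟨T', hT', hext, f', e1, e2, e3, e4⟩ := step T hT (j + 1) w ψ (by omega) f hf hS (by
      intro x
      have := hbig x
      nlinarith)
    have key := ih (X ⊕ Fin w) T' hT' w (ψ - 3 * ψ / (j + 1 + 2)) f' (by
        intro p
        rw [e1 p]) (by rw [e2]) (by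
        rintro (x | b)
        · have h1 := hbig x
          have h2 := e3 x
          obtain ⟨A, hA⟩ : ∃ A, A = f x / (j + 1 + 2) := ⟨_, rfl⟩
          have h3 := Nat.div_add_mod (f x) (j + 1 + 2)
          have h4 := Nat.mod_lt (f x) (show 0 < j + 1 + 2 by omega)
          have h5 : (j + 2) ^ 2 ≤ A := by
            rw [hA, Nat.le_div_iff_mul_le (by omega)]
            calc (j + 2) ^ 2 * (j + 1 + 2) = (j + 1 + 2) * (j + 1 + 1) ^ 2 := by ring
              _ ≤ f x := h1
          rw [← hA] at h2 h3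
          have h6 : f x - (j + 1 + 1) * A = A + f x % (j + 1 + 2) := by
            have : (j + 1 + 2) * A = (j + 1 + 1) * A + A := by ring
            omega
          rw [h6] at h2
          have h7 : (j + 1 + 2) * A = (j + 1) * A + 2 * A := by ring
          have h8 : (j + 1) * (j + 2) ^ 2 ≤ (j + 1) * A := Nat.mul_le_mul_left _ h5
          have h9 : (j + 2) * (j + 1) ^ 2 + (j + 2) ≤ (j + 1) * (j + 2) ^ 2 := by nlinarith
          omega
        · refine le_trans ?_ (e4 b)
          rw [Nat.le_div_iff_mul_le hw, Nat.le_div_iff_mul_le (by omega)]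
          calc (j + 2) * (j + 1) ^ 2 * w * (j + 1 + 2) = (j + 1 + 2) * (j + 1 + 1) * (j + 1) ^ 2 * w := by
                ring
            _ ≤ 3 * ψ := hψ) (by
        -- lower bound for ψ'
        obtain ⟨φ, hφ⟩ : ∃ φ, φ = 3 * ψ / (j + 1 + 2) := ⟨_, rfl⟩
        rw [← hφ]
        have h1 : φ * (j + 1 + 2) ≤ 3 * ψ := by rw [hφ]; exact Nat.div_mul_le_self _ _
        have h2 : φ ≤ ψ := by nlinarith
        obtain ⟨ψ', hψ'⟩ : ∃ ψ', ψ' + φ = ψ := ⟨ψ - φ, by omega⟩
        have h3 : ψ - φ = ψ' := by omega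
        rw [h3]
        have h4 : (j + 1 + 2) * (j + 1 + 1) * (j + 1) ^ 2 * w * j ≤ 3 * ψ * j :=
          Nat.mul_le_mul_right _ hψ
        have h5 : 3 * ψ * j ≤ 3 * ψ' * (j + 1 + 2) := by
          rw [← hψ'] at h1 ⊢
          nlinarith
        have h6 : (j + 1 + 2) * ((j + 2) * (j + 1) * j ^ 2 * w) ≤
            (j + 1 + 2) * (j + 1 + 1) * (j + 1) ^ 2 * w * j := by
          have : (j + 1 + 2) * (j + 1 + 1) * (j + 1) ^ 2 * w * j =
            (j + 1 + 2) * ((j + 2) * (j + 1) * (j * (j + 1)) * w) := by ring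
          rw [this]
          apply Nat.mul_le_mul_left
          apply Nat.mul_le_mul_right
          apply Nat.mul_le_mul_left
          nlinarith
        have h7 : (j + 1 + 2) * ((j + 2) * (j + 1) * j ^ 2 * w) ≤ (j + 1 + 2) * (3 * ψ') := by
          calc _ ≤ _ := h6
            _ ≤ _ := h4
            _ ≤ _ := h5
            _ = _ := by ring
        exact Nat.le_of_mul_le_mul_left h7 (by omega)) (by
        simp only [Fintype.card_sum, Fintype.card_fin]
        calc 3 * (Fintype.card X + w + j * w) = 3 * (Fintype.card X + (j + 1) * w) := by ring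
          _ ≤ w * w := hn)
    have key2 := Embeds.of_ext T T' Sum.inl Sum.inl_injective hext key
    have : Fintype.card (X ⊕ Fin w) + (j + 2) * w = Fintype.card X + (j + 1 + 2) * w := by
      simp only [Fintype.card_sum, Fintype.card_fin]
      ring
    rw [this] at key2
    exact key2

theorem odeg_le {X : Type} [Fintype X] (T : X → X → X → Prop) (x : X) :
    odeg T x ≤ Fintype.card X := by
  unfold odeg
  exact Finset.card_le_univ _

theorem start {X : Type} [Fintype X] [DecidableEq X] (T : X → X → X → Prop) (hT : PSSQ T)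
    (j w ψ : ℕ) (hj : 1 ≤ j)
    (hw : Fintype.card X + (j + 1) * ((j + 1) ^ 2 + 6) ≤ (j + 1) * w)
    (hψ : ∑ x, ((j + 2) * w - odeg T x) + 3 * ψ = (j + 2) * ((j + 1) * w * w)) :
    Embeds T (Fintype.card X + (j + 2) * w) := by
  have hwc : (j + 1) ^ 2 + 6 ≤ w := by
    have : (j + 1) * ((j + 1) ^ 2 + 6) ≤ (j + 1) * w := by omega
    exact Nat.le_of_mul_le_mul_left this (by omega)
  have : NeZero w := ⟨by omega⟩
  have hle : ∀ x, odeg T x ≤ (j + 1) * w := by
    intro x
    have := odeg_le T x
    omega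
  have e0 : (j + 2) * w = (j + 1) * w + w := by ring
  apply rec_main j hj X T hT w ψ (fun x => (j + 2) * w - odeg T x)
  · intro x
    have := hle x
    omega
  · exact hψ
  · intro x
    have h1 := odeg_le T x
    -- (j+2)w - odeg ≥ w + (j+1)((j+1)^2+6)
    have h2 : (j + 2) * (j + 1) ^ 2 ≤ ((j + 1) ^ 2 + 6) + (j + 1) * ((j + 1) ^ 2 + 6) := by
      nlinarith
    omega
  · -- ψ large
    have h1 : ∑ x, ((j + 2) * w - odeg T x) ≤ Fintype.card X * ((j + 2) * w) := by
      calc ∑ x, ((j + 2) * w - odeg T x) ≤ ∑ _x : X, (j + 2) * w :=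
            Finset.sum_le_sum (fun x _ => Nat.sub_le _ _)
        _ = Fintype.card X * ((j + 2) * w) := by
            simp only [Finset.sum_const, Finset.card_univ, smul_eq_mul]
    have h2 : (Fintype.card X + (j + 1) * ((j + 1) ^ 2 + 6)) * ((j + 2) * w) ≤
        ((j + 1) * w) * ((j + 2) * w) := Nat.mul_le_mul_right _ hw
    have h3 : ((j + 1) * w) * ((j + 2) * w) = (j + 2) * ((j + 1) * w * w) := by ring
    have h4 : (j + 2) * (j + 1) * j ^ 2 * w ≤ (j + 1) * ((j + 1) ^ 2 + 6) * ((j + 2) * w) := by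
      have : (j + 1) * ((j + 1) ^ 2 + 6) * ((j + 2) * w) =
        (j + 2) * (j + 1) * ((j + 1) ^ 2 + 6) * w := by ring
      rw [this]
      apply Nat.mul_le_mul_right
      apply Nat.mul_le_mul_left
      nlinarith
    rw [add_mul] at h2
    omega
  · have h1 : Fintype.card X ≤ (j + 1) * w := by omega
    have h2 : 6 * j + 3 ≤ w := by
      have : 6 * j + 3 ≤ (j + 1) ^ 2 + 6 := by
        have : (j + 1) ^ 2 + 6 = j * j + 2 * j + 7 := by ring
        rw [this]
        have h5 : 4 * j ≤ j * j + 4 := by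
          zify
          nlinarith [sq_nonneg ((j : ℤ) - 2)]
        omega
      omega
    calc 3 * (Fintype.card X + j * w) ≤ 3 * ((j + 1) * w + j * w) := by
          apply Nat.mul_le_mul_left; omega
      _ = (6 * j + 3) * w := by ring
      _ ≤ w * w := Nat.mul_le_mul_right _ h2

/-- add `u` further points, the first `e` of them idempotent -/
def addPts {X : Type} (T : X → X → X → Prop) (u e : ℕ) :
    (X ⊕ Fin u) → (X ⊕ Fin u) → (X ⊕ Fin u) → Prop
  | .inl a, .inl b, .inl d => T a b d
  | .inr a, .inr b, .inr d => a = b ∧ b = d ∧ a.1 < e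
  | .inl _, .inl _, .inr _ => False
  | .inl _, .inr _, .inl _ => False
  | .inr _, .inl _, .inl _ => False
  | .inl _, .inr _, .inr _ => False
  | .inr _, .inl _, .inr _ => False
  | .inr _, .inr _, .inl _ => False

theorem addPts_pssq {X : Type} (T : X → X → X → Prop) (hT : PSSQ T) (u e : ℕ) :
    PSSQ (addPts T u e) := by
  constructor
  · rintro (x | x) (y | y) (z | z) h
    · exact hT.cyc _ _ _ h
    · exact h
    · exact h
    · exact h
    · exact h
    · exact h
    · exact h
    · obtain ⟨h1, h2, h3⟩ := h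
      subst h1; subst h2
      exact ⟨rfl, rfl, h3⟩
  · rintro (x | x) (y | y) (z | z) (z' | z') h h'
    · rw [hT.uniq _ _ _ _ h h']
    · exact absurd h' (by simp [addPts])
    · exact absurd h (by simp [addPts])
    · exact absurd h (by simp [addPts])
    · exact absurd h (by simp [addPts])
    · exact absurd h' (by simp [addPts])
    · exact absurd h (by simp [addPts])
    · exact absurd h (by simp [addPts])
    · exact absurd h (by simp [addPts])
    · exact absurd h' (by simp [addPts])
    · exact absurd h (by simp [addPts])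
    · exact absurd h (by simp [addPts])
    · exact absurd h (by simp [addPts])
    · exact absurd h (by simp [addPts])
    · exact absurd h' (by simp [addPts])
    · rw [← h.2.1, ← h'.2.1]

theorem addPts_odeg_inl {X : Type} [Fintype X] (T : X → X → X → Prop) (u e : ℕ) (x : X) :
    odeg (addPts T u e) (.inl x) = odeg T x + u := by
  classical
  unfold odeg
  rw [cfs]
  congr 1
  · congr 1
    ext y
    simp only [Finset.mem_filter, Finset.mem_univ, true_and]
    apply not_congr
    constructor
    · rintro ⟨z | z, hz⟩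
      · exact ⟨z, hz⟩
      · exact absurd hz (by simp [addPts])
    · rintro ⟨z, hz⟩
      exact ⟨.inl z, hz⟩
  · rw [Finset.filter_true_of_mem]
    · simp
    · rintro b _ ⟨z | z, hz⟩
      · exact absurd hz (by simp [addPts])
      · exact absurd hz (by simp [addPts])

theorem addPts_odeg_inr {X : Type} [Fintype X] (T : X → X → X → Prop) (u e : ℕ) (a : Fin u) :
    odeg (addPts T u e) (.inr a) + (if a.1 < e then 1 else 0) = Fintype.card X + u := by
  classical
  unfold odeg
  rw [cfs]
  have h1 : (Finset.univ.filter (fun y : X => ¬ ∃ z, addPts T u e (.inr a) (.inl y) z)).card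
      = Fintype.card X := by
    rw [Finset.filter_true_of_mem]
    · simp
    · rintro b _ ⟨z | z, hz⟩
      · exact absurd hz (by simp [addPts])
      · exact absurd hz (by simp [addPts])
  have h2 : (Finset.univ.filter (fun y : Fin u => ¬ ∃ z, addPts T u e (.inr a) (.inr y) z)).card
      + (if a.1 < e then 1 else 0) = u := by
    have h3 := Finset.card_filter_add_card_filter_not (s := (Finset.univ : Finset (Fin u)))
      (p := fun y => ∃ z, addPts T u e (.inr a) (.inr y) z)
    have h4 : (Finset.univ.filter (fun y : Fin u => ∃ z, addPts T u e (.inr a) (.inr y) z)).card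
      = (if a.1 < e then 1 else 0) := by
      split_ifs with h
      · rw [Finset.card_eq_one]
        refine ⟨a, ?_⟩
        ext y
        simp only [Finset.mem_filter, Finset.mem_univ, true_and, Finset.mem_singleton]
        constructor
        · rintro ⟨z | z, hz⟩
          · exact absurd hz (by simp [addPts])
          · exact hz.1.symm
        · rintro rfl
          exact ⟨.inr y, rfl, rfl, h⟩
      · rw [Finset.card_eq_zero, Finset.filter_eq_empty_iff]
        rintro y _ ⟨z | z, hz⟩
        · exact absurd hz (by simp [addPts])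
        · exact h hz.2.2
    rw [h4] at h3
    simp only [Finset.card_univ, Fintype.card_fin] at h3
    omega
  omega

theorem sum_lt_ite (u e : ℕ) (h : e ≤ u) : ∑ a : Fin u, (if a.1 < e then 1 else 0) = e := by
  rw [← Finset.card_filter]
  have : (Finset.univ.filter (fun a : Fin u => a.1 < e)) =
      (Finset.univ : Finset (Fin e)).map (Fin.castLEEmb h) := by
    ext a
    simp only [Finset.mem_filter, Finset.mem_univ, true_and, Finset.mem_map]
    constructor
    · intro ha
      exact ⟨⟨a.1, ha⟩, rfl⟩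
    · rintro ⟨b, rfl⟩
      exact b.2
  rw [this, Finset.card_map]
  simp

theorem embeds_main {X : Type} [Fintype X] [DecidableEq X] (T : X → X → X → Prop) (hT : PSSQ T)
    (i t : ℕ) (hi : 2 ≤ i) (ht : (2 * i + 1) * Fintype.card X + 5 * i ^ 4 ≤ i * t) :
    Embeds T t := by
  classical
  obtain ⟨j, rfl⟩ : ∃ j, i = j + 1 := ⟨i - 1, by omega⟩
  have hj : 1 ≤ j := by omega
  obtain ⟨n, hn⟩ : ∃ n, n = Fintype.card X := ⟨_, rfl⟩
  rw [← hn] at ht
  have h0 : n + 2 ≤ t := by
    by_contra hcon
    have h1 : (j + 1) * t ≤ (j + 1) * (n + 1) := Nat.mul_le_mul_left _ (by omega)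
    have h2 : (2 * (j + 1) + 1) * n = (j + 1) * n + (j + 2) * n := by ring
    have h3 : (j + 1) * (n + 1) = (j + 1) * n + (j + 1) := by ring
    have h4 : j + 1 < 5 * (j + 1) ^ 4 := by
      have : (j + 1) * 1 ≤ (j + 1) * (j + 1) ^ 3 :=
        Nat.mul_le_mul_left _ (Nat.one_le_pow _ _ (by omega))
      have h6 : (j + 1) ^ 4 = (j + 1) * (j + 1) ^ 3 := by ring
      omega
    omega
  -- u, w
  obtain ⟨u, hu⟩ : ∃ u, u = 2 + (t - n - 2) % (j + 2) := ⟨_, rfl⟩
  obtain ⟨w, hw⟩ : ∃ w, w = (t - n - 2) / (j + 2) := ⟨_, rfl⟩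
  have h1 := Nat.div_add_mod (t - n - 2) (j + 2)
  have h2 := Nat.mod_lt (t - n - 2) (show 0 < j + 2 by omega)
  rw [← hw] at h1
  have htw : t = n + u + (j + 2) * w := by omega
  have hu2 : u ≤ j + 3 := by omega
  have hu3 : 2 ≤ u := by omega
  -- lower bound for w
  have hwlow : n + u + (j + 1) * ((j + 1) ^ 2 + 6) ≤ (j + 1) * w := by
    have e1 : (j + 2) * (n + u + (j + 1) * ((j + 1) ^ 2 + 6)) ≤ (j + 2) * ((j + 1) * w) := by
      have e2 : (j + 1) * t = (j + 1) * (n + u) + (j + 2) * ((j + 1) * w) := by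
        rw [htw]; ring
      have e3 : (2 * j + 3) * u ≤ (2 * j + 3) * (j + 3) := Nat.mul_le_mul_left _ hu2
      have e4 : (2 * j + 3) * (j + 3) + (j + 2) * ((j + 1) * ((j + 1) ^ 2 + 6)) ≤
          5 * (j + 1) ^ 4 := by
        obtain ⟨l, rfl⟩ : ∃ l, j = l + 1 := ⟨j - 1, by omega⟩
        ring_nf
        nlinarith [Nat.zero_le l, Nat.zero_le (l ^ 2), Nat.zero_le (l ^ 3), Nat.zero_le (l ^ 4)]
      have e5 : (j + 2) * (n + u + (j + 1) * ((j + 1) ^ 2 + 6)) + (j + 1) * (n + u) =
        (2 * (j + 1) + 1) * n + (2 * j + 3) * u + (j + 2) * ((j + 1) * ((j + 1) ^ 2 + 6)) := by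
        ring
      omega
    exact Nat.le_of_mul_le_mul_left e1 (by omega)
  have hcard : Fintype.card (X ⊕ Fin u) = n + u := by simp [hn]
  -- sums
  have hS : ∀ e ≤ u, ∑ p, ((j + 2) * w - odeg (addPts T u e) p) =
      ∑ p, ((j + 2) * w - odeg (addPts T u 0) p) + e := by
    intro e he
    rw [Fintype.sum_sum_type, Fintype.sum_sum_type]
    have e1 : ∀ x, (j + 2) * w - odeg (addPts T u e) (.inl x) =
        (j + 2) * w - odeg (addPts T u 0) (.inl x) := by
      intro x
      rw [addPts_odeg_inl, addPts_odeg_inl]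
    have e2 : ∀ a : Fin u, (j + 2) * w - odeg (addPts T u e) (.inr a) =
        ((j + 2) * w - odeg (addPts T u 0) (.inr a)) + (if a.1 < e then 1 else 0) := by
      intro a
      have a1 := addPts_odeg_inr T u e a
      have a2 := addPts_odeg_inr T u 0 a
      simp only [Nat.not_lt_zero, if_false, add_zero] at a2
      have a3 : (j + 2) * w = (j + 1) * w + w := by ring
      rw [← hn] at a1 a2
      split_ifs at a1 ⊢ <;> omega
    rw [Finset.sum_congr rfl (fun x _ => e1 x), Finset.sum_congr rfl (fun a _ => e2 a),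
      Finset.sum_add_distrib, sum_lt_ite u e he]
    ring
  have hSle : ∑ p, ((j + 2) * w - odeg (addPts T u 0) p) + 2 ≤ (j + 2) * ((j + 1) * w * w) := by
    have e1 : ∑ p, ((j + 2) * w - odeg (addPts T u 0) p) ≤ (n + u) * ((j + 2) * w) := by
      calc ∑ p, ((j + 2) * w - odeg (addPts T u 0) p) ≤ ∑ _p : X ⊕ Fin u, (j + 2) * w :=
            Finset.sum_le_sum (fun x _ => Nat.sub_le _ _)
        _ = (n + u) * ((j + 2) * w) := by
            rw [Finset.sum_const, Finset.card_univ, hcard, smul_eq_mul]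
    have e2 : (n + u + 1) * ((j + 2) * w) ≤ ((j + 1) * w) * ((j + 2) * w) := by
      apply Nat.mul_le_mul_right
      have : 1 ≤ (j + 1) * ((j + 1) ^ 2 + 6) := Nat.mul_pos (by omega) (by omega)
      omega
    have e3 : 2 ≤ (j + 2) * w := by
      have : 1 ≤ w := by
        by_contra h
        have : w = 0 := by omega
        rw [this] at hwlow
        omega
      nlinarith
    have e4 : ((j + 1) * w) * ((j + 2) * w) = (j + 2) * ((j + 1) * w * w) := by ring
    rw [add_mul, one_mul] at e2
    omega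
  obtain ⟨S0, hS0⟩ : ∃ S0, S0 = ∑ p, ((j + 2) * w - odeg (addPts T u 0) p) := ⟨_, rfl⟩
  rw [← hS0] at hSle hS
  obtain ⟨K, hK⟩ : ∃ K, K = (j + 2) * ((j + 1) * w * w) := ⟨_, rfl⟩
  rw [← hK] at hSle
  have key := start (addPts T u ((K - S0) % 3)) (addPts_pssq T hT u _) j w ((K - S0) / 3) hj
    (by rw [hcard]; exact hwlow)
    (by
      rw [hS _ (by omega), ← hK]
      omega)
  rw [hcard, ← htw] at key
  exact Embeds.of_ext T _ Sum.inl Sum.inl_injective (fun x y z h => h) key

end Pool.Agent.Helper74.SSQ
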